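import Pool.Agent.Q46.PV.Inst
import Pool.Agent.Q46.GQ.Additive

/-!
# Long strings of composite values of a polynomial around all coordinates of solutions of additive equations over prime fields

Let `f` be an irreducible polynomial with integer coefficients and positive leading coefficient, for instance
`f = X^2 - 2`.  For every equation `F_1(x_1) + ... + F_n(x_n) = c` modulo a large prime `p`, each `F_j` a polynomial of
degree `≥ 2`, an exponential function or a reciprocal, there are many solutions, in all boxes for which Weil's bound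
gives solutions, such that the values `f(m)` at all the integers `m` at distance at most `κ log p log log p` of any of the
`x_j` are composite.

Design and proof: helper46 (modules `Pool.Agent.Q46.PV.*`: the covering criterion for vectors of integers and values of
polynomials, on the covering theorem `Pool.Agent.H474R2.PG` of the starting repository; `Pool.Agent.Q46.GQ.*`).
-/

set_option autoImplicit false

open Polynomial Finset

namespace Pool.Agent.Results.MP_0b748d_nt.AdditiveEquations

/-- every value of `f` at an integer at distance at most `K` of `x` has a prime factor smaller than the value (in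
particular none of these values is a prime) -/
def Composite (f : ℤ[X]) (K : ℝ) (x : ℤ) : Prop :=
  ∀ k : ℤ, |(k : ℝ)| ≤ K → ∃ q : ℕ, q.Prime ∧ (q : ℤ) ∣ f.eval (x + k) ∧ (q : ℤ) < f.eval (x + k)

/-- the length `log x log log x` -/
noncomputable def len (x : ℝ) : ℝ := Real.log x * Real.log (Real.log x)

/-- the terms: polynomials `f(x)`, exponentials `c g^x`, reciprocals `c x⁻¹` -/
inductive Term (p : ℕ) : Type
  | poly (f : (ZMod p)[X]) : Term p
  | exp (c g : (ZMod p)ˣ) : Term p
  | inv (c : (ZMod p)ˣ) : Term p

variable {p : ℕ}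

/-- the period: `p`, or the multiplicative order of `g` -/
noncomputable def Term.period : Term p → ℕ
  | .poly _ => p
  | .exp _ g => orderOf g
  | .inv _ => p

/-- the value at the natural number `x` (the reciprocal of `0` is `0`) -/
noncomputable def Term.value [Fact p.Prime] : Term p → ℕ → ZMod p
  | .poly f, x => f.eval (x : ZMod p)
  | .exp c g, x => (c : ZMod p) * (g : ZMod p) ^ x
  | .inv c, x => (c : ZMod p) * (x : ZMod p)⁻¹

/-- the degrees of the polynomials are between `2` and `D` -/
def Term.Ok (D : ℕ) : Term p → Prop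
  | .poly f => 2 ≤ f.natDegree ∧ f.natDegree ≤ D
  | .exp _ _ => True
  | .inv _ => True

/-- Let `f` be irreducible of positive degree with positive leading coefficient, `n`, `D` natural numbers and `0 < ε ≤ 1`. There are `κ > 0` and `p₀` such that for all primes `p ≥ p₀`, all
terms `F_1, ..., F_n` (polynomials of degree between `2` and `D`, exponentials, reciprocals), all `c` and all intervals
`[A_j, A_j + N_j)` in `[0, period of F_j)` with `N_j ≥ p^ε` and `N_1 ... N_n ≥ p^(n/2 + 1 + ε)`, there is a set of at
least `N_1 ... N_n p^(-1-ε)` vectors `x` of natural numbers with `A_j ≤ x_j < A_j + N_j` for all `j`,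
`F_1(x_1) + ... + F_n(x_n) = c` in the field with `p` elements, and `f(m)` is composite for all integers `m` at
distance at most `κ log p log log p` of any of the `x_j`. -/
theorem result : ∀ f : ℤ[X], Irreducible f → 0 < f.natDegree → 0 < f.leadingCoeff → ∀ (n D : ℕ) (ε : ℝ), 0 < ε → ε ≤ 1 → ∃ κ : ℝ, 0 < κ ∧ ∃ p₀ : ℕ, ∀ p : ℕ, p₀ ≤ p →
    ∀ [Fact p.Prime], ∀ (F : Fin n → Term p), (∀ j, (F j).Ok D) → ∀ (c : ZMod p) (A N : Fin n → ℕ),
      (∀ j, A j + N j ≤ (F j).period) → (∀ j, (p : ℝ) ^ ε ≤ N j) →
      (p : ℝ) ^ ((n : ℝ) / 2 + 1 + ε) ≤ ∏ j, (N j : ℝ) →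
      ∃ G : Finset (Fin n → ℕ), (∏ j, (N j : ℝ)) * (p : ℝ) ^ (-(1 + ε)) ≤ G.card ∧
        ∀ x ∈ G, (∀ j, A j ≤ x j ∧ x j < A j + N j) ∧ ∑ j, (F j).value (x j) = c ∧
          ∀ j, Composite f (κ * len p) (x j) := by
  classical
  intro f hf hd hl n D ε h0 h1
  have hK : (1 : ℝ) ≤ D + 3 := by
    have : (0 : ℝ) ≤ D := Nat.cast_nonneg _
    linarith
  obtain ⟨κ, hκ, p₀, h⟩ := Pool.Agent.Q46.GQ.additive (Pool.Agent.Q46.PV.QP f)
    (Pool.Agent.Q46.PV.CH_QP f hf hd hl) n (D + 3) hK ε h0 h1
  refine ⟨κ, hκ, max p₀ (D + 1), ?_⟩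
  intro p hp _ F hF c A N hA hN hP
  have hpD : D < p := lt_of_lt_of_le (Nat.lt_succ_self D) ((le_max_right _ _).trans hp)
  have hpp : p.Prime := Fact.out
  have hs0 : 0 ≤ Real.sqrt p := Real.sqrt_nonneg _
  have hD0 : (0 : ℝ) ≤ D := Nat.cast_nonneg _
  have key := h p ((le_max_left _ _).trans hp) (fun j => (F j).period) (fun j => (F j).value) c
    (fun j => by
      cases hj : F j with
      | poly f => exact hpp.one_lt.le
      | exp c g => exact orderOf_pos g
      | inv c => exact hpp.one_lt.le)
    (fun j => by
      cases hj : F j with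
      | poly f => exact le_rfl
      | exp c g =>
        show orderOf g ≤ p
        have h1 : orderOf g ∣ Fintype.card (ZMod p)ˣ := orderOf_dvd_card
        rw [ZMod.card_units_eq_totient, Nat.totient_prime hpp] at h1
        exact (Nat.le_of_dvd (by have := hpp.two_le; omega) h1).trans (Nat.sub_le _ _)
      | inv c => exact le_rfl)
    (fun j h hh t ht => by
      have hok := hF j
      cases hj : F j with
      | poly f =>
        rw [hj] at hok hh
        obtain ⟨h2, h3⟩ := hok
        have h4 := Pool.Agent.Q46.MH.SS_poly f h2 (lt_of_le_of_lt h3 hpD) h hh ht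
        have h5 : (f.natDegree : ℝ) ≤ D := by exact_mod_cast h3
        refine le_trans h4 (mul_le_mul_of_nonneg_right (by linarith) hs0)
      | exp a g =>
        have h4 := Pool.Agent.Q46.MH.SS_exp a g h ht
        have h5 : (fun x : ℕ => ((a * g ^ x : (ZMod p)ˣ) : ZMod p)) = (Term.exp a g : Term p).value := by
          funext x
          show ((a * g ^ x : (ZMod p)ˣ) : ZMod p) = (a : ZMod p) * (g : ZMod p) ^ x
          rw [Units.val_mul, Units.val_pow_eq_pow_val]
        rw [h5] at h4
        refine le_trans h4 ?_
        nlinarith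
      | inv a =>
        rw [hj] at hh
        have h4 := Pool.Agent.Q46.MH.SS_inv a h hh ht
        refine le_trans h4 (mul_le_mul_of_nonneg_right (by linarith) hs0))
    A N hA hN hP
  refine ⟨_, key, ?_⟩
  intro x hx
  unfold Pool.Agent.Q46.GQ.goodR Pool.Agent.Q46.MH.sol at hx
  rw [mem_filter, mem_filter] at hx
  exact ⟨fun j => mem_Ico.1 (hx.2.1 j), hx.1.2, hx.2.2⟩

end Pool.Agent.Results.MP_0b748d_nt.AdditiveEquations
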