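import Pool.Agent.Q46.PV.Inst
import Pool.Agent.Q46.GQ.Sidon

/-!
# Long strings of composite values of a polynomial meet all dense Sidon sets and all Costas arrays

Let `f` be an irreducible polynomial with integer coefficients and positive leading coefficient, for instance
`f = X^2 - 2`.  Every Sidon set of vectors in `{1, ..., n}^r` of nearly maximal size has many members `a` such that the
values `f(m)` at all the integers `m` at distance at most `κ log n log log n` of any coordinate of `a` are composite; every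
Costas array of order `n` has many dots both of whose coordinates have this property.

Design and proof: helper46 (modules `Pool.Agent.Q46.PV.*`: the covering criterion for vectors of integers and values of
polynomials, on the covering theorem `Pool.Agent.H474R2.PG` of the starting repository; `Pool.Agent.Q46.GQ.*`).
-/

set_option autoImplicit false

open Polynomial Finset

namespace Pool.Agent.Results.MP_0b748d_nt.DenseSidonSets

/-- every value of `f` at an integer at distance at most `K` of `x` has a prime factor smaller than the value (in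
particular none of these values is a prime) -/
def Composite (f : ℤ[X]) (K : ℝ) (x : ℤ) : Prop :=
  ∀ k : ℤ, |(k : ℝ)| ≤ K → ∃ q : ℕ, q.Prime ∧ (q : ℤ) ∣ f.eval (x + k) ∧ (q : ℤ) < f.eval (x + k)

/-- the length `log x log log x` -/
noncomputable def len (x : ℝ) : ℝ := Real.log x * Real.log (Real.log x)

/-- Sidon sets of vectors of integers -/
def IsSidon {r : ℕ} (A : Finset (Fin r → ℤ)) : Prop :=
  ∀ a ∈ A, ∀ b ∈ A, ∀ c ∈ A, ∀ d ∈ A, a + b = c + d → (a = c ∧ b = d) ∨ (a = d ∧ b = c)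

/-- Costas arrays: the difference vectors `(j - i, π j - π i)`, `i ≠ j`, are all different -/
def IsCostas {n : ℕ} (π : Equiv.Perm (Fin n)) : Prop :=
  ∀ i j k l : Fin n, i ≠ j → (j : ℤ) - i = (l : ℤ) - k → (π j : ℤ) - π i = (π l : ℤ) - π k → i = k ∧ j = l

open Classical in
/-- Let `f` be irreducible of positive degree with positive leading coefficient and `ε > 0`.

* Let `r ≥ 1` and `δ > 0`. There are `κ > 0` and `n₀` such that for all `n ≥ n₀` every Sidon set `A` of vectors of
  `{1, ..., n}^r` with `|A|² ≥ n^r (1 - n^(-δ))` has at least `|A| n^(-ε)` members such that `f(m)` is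
  composite for all integers `m` at distance at most `κ log n log log n` of any of their `r` coordinates.
* There are `κ > 0` and `n₀` such that for all `n ≥ n₀` every Costas array `π` of order `n` has at least `n^(1-ε)` dots
  `(i, π i)` such that `f(m)` is composite for all integers `m` at distance at most `κ log n log log n` of `i` or of `π i`. (Rows and columns are numbered
  from `1` to `n`.) -/
theorem result : ∀ f : ℤ[X], Irreducible f → 0 < f.natDegree → 0 < f.leadingCoeff → ∀ ε : ℝ, 0 < ε →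
    (∀ r : ℕ, 1 ≤ r → ∀ δ : ℝ, 0 < δ → ∃ κ : ℝ, 0 < κ ∧ ∃ n₀ : ℕ, ∀ n : ℕ, n₀ ≤ n →
      ∀ A : Finset (Fin r → ℤ), IsSidon A → (∀ a ∈ A, ∀ j, 1 ≤ a j ∧ a j ≤ n) →
        (n : ℝ) ^ r * (1 - (n : ℝ) ^ (-δ)) ≤ (A.card : ℝ) ^ 2 →
        (A.card : ℝ) * (n : ℝ) ^ (-ε) ≤ ((A.filter (fun a => ∀ j, Composite f (κ * len n) (a j))).card : ℝ)) ∧
    (∃ κ : ℝ, 0 < κ ∧ ∃ n₀ : ℕ, ∀ n : ℕ, n₀ ≤ n → ∀ π : Equiv.Perm (Fin n), IsCostas π →
      (n : ℝ) ^ (1 - ε) ≤ ((univ.filter (fun i : Fin n =>
        Composite f (κ * len n) ((i : ℤ) + 1) ∧ Composite f (κ * len n) ((π i : ℤ) + 1))).card : ℝ)) := by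
  intro f hf hd hl ε hε
  have main : ∀ r : ℕ, 1 ≤ r → ∀ δ : ℝ, 0 < δ → ∃ κ : ℝ, 0 < κ ∧ ∃ n₀ : ℕ, ∀ n : ℕ, n₀ ≤ n →
      ∀ A : Finset (Fin r → ℤ), IsSidon A → (∀ a ∈ A, ∀ j, 1 ≤ a j ∧ a j ≤ n) →
        (n : ℝ) ^ r * (1 - (n : ℝ) ^ (-δ)) ≤ (A.card : ℝ) ^ 2 →
        (A.card : ℝ) * (n : ℝ) ^ (-ε) ≤
          ((A.filter (fun a => ∀ j, Composite f (κ * len n) (a j))).card : ℝ) := by
    intro r hr δ hδ
    obtain ⟨κ, hκ, n₀, h⟩ := Pool.Agent.Q46.GQ.sidon_main (Pool.Agent.Q46.PV.QP f)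
      (Pool.Agent.Q46.PV.CH_QP f hf hd hl) r hr (min δ (1 / 4)) (lt_min hδ (by norm_num))
      (min_le_right _ _) ε hε
    refine ⟨κ, hκ, max n₀ 1, ?_⟩
    intro n hn A hA hAn hAc
    have hn1 : (1 : ℝ) ≤ n := by exact_mod_cast (le_max_right _ _).trans hn
    have h1 : (n : ℝ) ^ (-δ) ≤ (n : ℝ) ^ (-(min δ (1 / 4))) :=
      Real.rpow_le_rpow_of_exponent_le hn1 (by linarith [min_le_left δ (1 / 4)])
    have h2 : (n : ℝ) ^ r * (1 - (n : ℝ) ^ (-(min δ (1 / 4)))) ≤ (A.card : ℝ) ^ 2 :=
      (mul_le_mul_of_nonneg_left (by linarith) (by positivity)).trans hAc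
    refine (h n ((le_max_left _ _).trans hn) A hA hAn h2).trans (le_of_eq ?_)
    have h4 : A.filter (fun a => ∀ j, Pool.Agent.Q46.PV.QP f κ n (a j)) =
        A.filter (fun a => ∀ j, Composite f (κ * len n) (a j)) := filter_congr fun a _ => Iff.rfl
    rw [h4]
  refine ⟨main, ?_⟩
  obtain ⟨κ, hκ, n₀, h⟩ := main 2 (by norm_num) (1 / 4) (by norm_num)
  refine ⟨κ, hκ, max n₀ 1, ?_⟩
  intro n hn π hπ
  have hn1 : (1 : ℝ) ≤ n := by exact_mod_cast (le_max_right _ _).trans hn
  have hn0 : (0 : ℝ) < n := by linarith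
  set v : Fin n → Fin 2 → ℤ := fun i => ![(i : ℤ) + 1, (π i : ℤ) + 1] with hv
  have hv0 : ∀ i, v i 0 = (i : ℤ) + 1 := fun i => rfl
  have hv1 : ∀ i, v i 1 = (π i : ℤ) + 1 := fun i => rfl
  have hinj : Function.Injective v := by
    intro i j hij
    have h1 := congrFun hij 0
    rw [hv0, hv0] at h1
    apply Fin.ext
    omega
  have hA : IsSidon (univ.image v) := by
    intro a ha b hb c hc d hd habcd
    rw [mem_image] at ha hb hc hd
    obtain ⟨i, _, rfl⟩ := ha
    obtain ⟨j, _, rfl⟩ := hb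
    obtain ⟨k, _, rfl⟩ := hc
    obtain ⟨l, _, rfl⟩ := hd
    have h1 := congrFun habcd 0
    have h2 := congrFun habcd 1
    rw [Pi.add_apply, Pi.add_apply, hv0, hv0, hv0, hv0] at h1
    rw [Pi.add_apply, Pi.add_apply, hv1, hv1, hv1, hv1] at h2
    by_cases hik : k = i
    · left
      subst hik
      have : j = l := Fin.ext (by omega)
      rw [this]
      exact ⟨rfl, rfl⟩
    · right
      have h3 := hπ k i j l hik (by omega) (by omega)
      rw [h3.1, h3.2]
      exact ⟨rfl, rfl⟩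
  have hcard : (univ.image v).card = n := by
    rw [card_image_of_injective _ hinj, card_univ, Fintype.card_fin]
  have key := h n ((le_max_left _ _).trans hn) (univ.image v) hA (by
    intro a ha j
    rw [mem_image] at ha
    obtain ⟨i, _, rfl⟩ := ha
    have h1 := i.2
    have h2 := (π i).2
    fin_cases j
    · show 1 ≤ v i 0 ∧ v i 0 ≤ n
      rw [hv0]
      omega
    · show 1 ≤ v i 1 ∧ v i 1 ≤ n
      rw [hv1]
      omega) (by
    rw [hcard]
    have : 0 ≤ (n : ℝ) ^ (-(1 / 4 : ℝ)) := Real.rpow_nonneg hn0.le _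
    nlinarith [sq_nonneg (n : ℝ)])
  rw [hcard] at key
  have h3 : (n : ℝ) ^ (1 - ε) = n * (n : ℝ) ^ (-ε) := by
    rw [sub_eq_add_neg, Real.rpow_add hn0, Real.rpow_one]
  rw [h3]
  refine key.trans (le_of_eq ?_)
  rw [filter_image, card_image_of_injective _ hinj]
  congr 2
  ext i
  rw [mem_filter, mem_filter, Fin.forall_fin_two, hv0, hv1]

end Pool.Agent.Results.MP_0b748d_nt.DenseSidonSets
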