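import Pool.Agent.Q46.PV.Inst
import Pool.Agent.Q46.GQ.Pseudo

/-!
# Long strings of composite values of a polynomial and pseudorandom sequences

Let `f` be an irreducible polynomial with integer coefficients and positive leading coefficient, for instance
`f = 3 X^2 + 3 X + 1`.  Let `a 0, ..., a (N - 1)` be signs whose correlations of order `≤ 2k` save a power of `N`.  Then
every pattern of `k` signs with arbitrary shifts occurs in the sequence at many places `n` such that the values `f(m)` at
all the integers `m` at distance at most `κ log N log log N` of `n` are composite.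

Design and proof: helper46 (modules `Pool.Agent.Q46.PV.*`: the covering criterion for vectors of integers and values of
polynomials, on the covering theorem `Pool.Agent.H474R2.PG` of the starting repository; `Pool.Agent.Q46.GQ.*`).
-/

set_option autoImplicit false

open Polynomial Finset

namespace Pool.Agent.Results.MP_22d6bb_nt.PseudorandomSequences

/-- every value of `f` at an integer at distance at most `K` of `x` has a prime factor smaller than the value (in
particular none of these values is a prime) -/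
def Composite (f : ℤ[X]) (K : ℝ) (x : ℤ) : Prop :=
  ∀ k : ℤ, |(k : ℝ)| ≤ K → ∃ q : ℕ, q.Prime ∧ (q : ℤ) ∣ f.eval (x + k) ∧ (q : ℤ) < f.eval (x + k)

/-- the length `log x log log x` -/
noncomputable def len (x : ℝ) : ℝ := Real.log x * Real.log (Real.log x)

/-- all the correlations of order at most `m` of the signs `a 0, ..., a (N - 1)` are at most `C` in absolute value:
`|∑_{n < M} ∏_{d ∈ D} a (n + d)| ≤ C` whenever `1 ≤ |D| ≤ m` and `M + d ≤ N` for all `d ∈ D` -/
def CorrelationsLe (N m : ℕ) (a : ℕ → ℤ) (C : ℝ) : Prop :=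
  ∀ D : Finset ℕ, D.Nonempty → D.card ≤ m → ∀ M : ℕ, (∀ d ∈ D, M + d ≤ N) →
    |((∑ n ∈ range M, ∏ d ∈ D, a (n + d) : ℤ) : ℝ)| ≤ C

open Classical in
/-- Let `f` be irreducible of positive degree with positive leading coefficient, `0 < δ ≤ 1` and `ε > 0`. There are `κ > 0` and `N₀` such that for all `N ≥ N₀`, all `k` with `2^k ≤ N^(δ/8)`,
all signs `a 0, ..., a (N - 1)` whose correlations of order at most `2k` are at most `N^(1-δ)`, all distinct shifts
`d_1, ..., d_k ≤ N/2` and all signs `s_1, ..., s_k`: at least `N^(1-ε) / 2^k` of the natural numbers `n < ⌊N/2⌋` with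
`a (n + d_i) = s_i` for all `i` are such that `f(m)` is composite for all integers `m` at
distance at most `κ log N log log N` of `n`. -/
theorem result : ∀ f : ℤ[X], Irreducible f → 0 < f.natDegree → 0 < f.leadingCoeff → ∀ δ : ℝ, 0 < δ → δ ≤ 1 → ∀ ε : ℝ, 0 < ε → ∃ κ : ℝ, 0 < κ ∧ ∃ N₀ : ℕ, ∀ N : ℕ, N₀ ≤ N →
    ∀ k : ℕ, (2 : ℝ) ^ k ≤ (N : ℝ) ^ (δ / 8) → ∀ a : ℕ → ℤ, (∀ n < N, a n = 1 ∨ a n = -1) →
      CorrelationsLe N (2 * k) a ((N : ℝ) ^ (1 - δ)) →
      ∀ d : Fin k → ℕ, Function.Injective d → (∀ i, 2 * d i ≤ N) → ∀ s : Fin k → ℤ, (∀ i, s i = 1 ∨ s i = -1) →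
        (N : ℝ) ^ (1 - ε) / 2 ^ k ≤
          (((range (N / 2)).filter (fun n => (∀ i, a (n + d i) = s i) ∧ Composite f (κ * len N) n)).card : ℝ) := by
  intro f hf hd hl δ hδ hδ1 ε hε
  obtain ⟨κ, hκ, N₀, h⟩ := Pool.Agent.Q46.GQ.pseudo (Pool.Agent.Q46.PV.QP f)
    (Pool.Agent.Q46.PV.CH_QP f hf hd hl) δ hδ hδ1 ε hε
  refine ⟨κ, hκ, N₀, ?_⟩
  intro N hN k hk a ha hC d hd hdN s hs
  refine (h N hN k hk a ha hC d hd hdN s hs).trans (le_of_eq ?_)
  unfold Pool.Agent.Q46.MH.pat
  rw [filter_filter]
  congr 2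

end Pool.Agent.Results.MP_22d6bb_nt.PseudorandomSequences
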