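import Pool.Agent.H622R3.SP.Pois
import Pool.Agent.H622R3.SP.Metric
import Pool.Agent.H749R6.CM.Fin

set_option autoImplicit false

/-!
# Exact counts and prime-free intervals of length `Λ log x` at the powers `x = α ^ (b n)` of almost every `α`

For all `0 < lam ≤ Lam` and `m ≥ 0` there is a constant `c(lam, Lam, m) > 0` such that for EVERY sequence
`b 1, b 2, ... → ∞` of real numbers and almost every `α > 1`: for all `lam, Lam, m` the set of `n` such that, with
`x = α ^ (b n)`, the interval `(x - lam log x, x)` contains exactly `m` primes and `(x - Lam log x, x - lam log x]`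
contains none has upper density at least `c(lam, Lam, m)`.
-/

namespace Pool.Agent.Results.MP_3bc45c_nt.ExactCountsAtPowers

open Filter MeasureTheory

/-- the primes in the open interval `(y - H, y)` -/
def primesBelow (H y : ℝ) : Set ℕ := {p : ℕ | p.Prime ∧ y - H < p ∧ (p : ℝ) < y}

/-- Exactly `m` primes in `(y - lam log y, y)`, and none in `(y - Lam log y, y - lam log y]`. -/
def ExactCount (lam Lam : ℝ) (m : ℕ) (y : ℝ) : Prop :=
  (primesBelow (lam * Real.log y) y).ncard = m ∧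
    primesBelow (Lam * Real.log y) y = primesBelow (lam * Real.log y) y

lemma mono {l1 l2 L1 L2 : ℝ} {m : ℕ} {y : ℝ} (hl : l1 ≤ l2) (h12 : l2 ≤ L1) (hL : L1 ≤ L2) (hy : 1 ≤ y)
    (h : Pool.Agent.H749R6.CM.Q l1 L2 m y) : ExactCount l2 L1 m y := by
  have hlog : 0 ≤ Real.log y := Real.log_nonneg hy
  have a1 : l1 * Real.log y ≤ l2 * Real.log y := mul_le_mul_of_nonneg_right hl hlog
  have a2 : l2 * Real.log y ≤ L1 * Real.log y := mul_le_mul_of_nonneg_right h12 hlog
  have a3 : L1 * Real.log y ≤ L2 * Real.log y := mul_le_mul_of_nonneg_right hL hlog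
  obtain ⟨h1, h2⟩ := h
  have e1 : primesBelow (l2 * Real.log y) y = {p : ℕ | p.Prime ∧ y - l1 * Real.log y < p ∧ (p : ℝ) < y} := by
    ext p
    simp only [primesBelow, Set.mem_ofPred_eq]
    constructor
    · rintro ⟨q1, q2, q3⟩
      exact ⟨q1, h2 p q1 (by linarith) q3, q3⟩
    · rintro ⟨q1, q2, q3⟩
      exact ⟨q1, by linarith, q3⟩
  have e2 : primesBelow (L1 * Real.log y) y = {p : ℕ | p.Prime ∧ y - l1 * Real.log y < p ∧ (p : ℝ) < y} := by
    ext p
    simp only [primesBelow, Set.mem_ofPred_eq]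
    constructor
    · rintro ⟨q1, q2, q3⟩
      exact ⟨q1, h2 p q1 (by linarith) q3, q3⟩
    · rintro ⟨q1, q2, q3⟩
      exact ⟨q1, by linarith, q3⟩
  exact ⟨by rw [e1]; exact h1, by rw [e1, e2]⟩

open Classical in
lemma rational (l L : ℚ) (m : ℕ) : ∃ c : ℝ, 0 < c ∧ (0 < l → l ≤ L → ∀ b : ℕ → ℝ, Tendsto b atTop atTop →
    ∀ᵐ α : ℝ, 1 < α → ∃ᶠ N : ℕ in atTop, c * N ≤ (((Finset.range N).filter
      (fun n => Pool.Agent.H749R6.CM.Q l L m (α ^ b n))).card : ℝ)) := by
  by_cases h : 0 < l ∧ l ≤ L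
  · obtain ⟨c, hc, hev⟩ := Pool.Agent.H622R3.SP.pois_density
      (fun lam Lam m h1 h2 => by
        obtain ⟨c, hc, N₀, h⟩ := Pool.Agent.H749R6.CM.pois lam Lam m h1 h2
        exact ⟨c, hc, N₀, fun N hN => by convert h N hN⟩) (l : ℝ) (L : ℝ) m (by exact_mod_cast h.1) (by exact_mod_cast h.2)
    refine ⟨c / 2, by positivity, fun _ _ b hb => ?_⟩
    filter_upwards [Pool.Agent.H622R3.SP.metric _ c hc hev b hb] with α hα hα1
    refine (hα hα1).mono fun N hN => hN.trans ?_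
    apply Nat.cast_le.2
    apply Finset.card_le_card
    intro n hn
    rw [Finset.mem_filter] at hn ⊢
    obtain ⟨hn1, k, hk, hk1, hk2⟩ := hn
    exact ⟨hn1, hk _ hk1 hk2⟩
  · exact ⟨1, one_pos, fun h1 h2 => absurd ⟨h1, h2⟩ h⟩

open Classical in
theorem result : ∃ c : ℝ → ℝ → ℕ → ℝ, (∀ lam Lam m, 0 < c lam Lam m) ∧
    ∀ b : ℕ → ℝ, Tendsto b atTop atTop → ∀ᵐ α : ℝ, 1 < α →
      ∀ (lam Lam : ℝ) (m : ℕ), 0 < lam → lam ≤ Lam → ∃ᶠ N : ℕ in atTop,
        c lam Lam m * N ≤ (((Finset.range N).filter (fun n => ExactCount lam Lam m (α ^ b n))).card : ℝ) := by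
  choose c0 hc0 h0 using rational
  have hr1 : ∀ lam : ℝ, ∃ q : ℚ, 0 < lam → 0 < q ∧ (q : ℝ) ≤ lam := by
    intro lam
    by_cases h : 0 < lam
    · obtain ⟨q, hq1, hq2⟩ := exists_rat_btwn h
      exact ⟨q, fun _ => ⟨by exact_mod_cast hq1, hq2.le⟩⟩
    · exact ⟨1, fun h' => absurd h' h⟩
  have hr2 : ∀ Lam : ℝ, ∃ q : ℚ, Lam ≤ (q : ℝ) := fun Lam => by
    obtain ⟨q, hq1, _⟩ := exists_rat_btwn (lt_add_one Lam)
    exact ⟨q, hq1.le⟩
  choose q1 hq1 using hr1
  choose q2 hq2 using hr2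
  refine ⟨fun lam Lam m => c0 (q1 lam) (q2 Lam) m / 2, fun lam Lam m => half_pos (hc0 _ _ _), fun b hb => ?_⟩
  have hall : ∀ᵐ α : ℝ, ∀ (l L : ℚ) (m : ℕ), 0 < l → l ≤ L → 1 < α → ∃ᶠ N : ℕ in atTop, c0 l L m * N ≤
      (((Finset.range N).filter (fun n => Pool.Agent.H749R6.CM.Q l L m (α ^ b n))).card : ℝ) := by
    rw [ae_all_iff]; intro l
    rw [ae_all_iff]; intro L
    rw [ae_all_iff]; intro m
    by_cases h1 : 0 < l
    · by_cases h2 : l ≤ L
      · filter_upwards [h0 l L m h1 h2 b hb] with α hα _ _ h3 using hα h3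
      · exact Eventually.of_forall fun _ _ h => absurd h h2
    · exact Eventually.of_forall fun _ h => absurd h h1
  filter_upwards [hall] with α hα hα1 lam Lam m hlam hLam
  obtain ⟨r1, r2⟩ := hq1 lam hlam
  have r3 := hq2 Lam
  have r4 : q1 lam ≤ q2 Lam := by exact_mod_cast r2.trans (hLam.trans r3)
  have hfr := hα (q1 lam) (q2 Lam) m r1 r4 hα1
  -- from some `n₀` on `α ^ b n ≥ 1`
  obtain ⟨n₀, hn₀⟩ := (hb.eventually_ge_atTop 0).exists_forall_of_atTop
  have hlarge : ∀ᶠ N : ℕ in atTop, (n₀ : ℝ) ≤ c0 (q1 lam) (q2 Lam) m / 2 * N :=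
    (tendsto_natCast_atTop_atTop.const_mul_atTop (half_pos (hc0 _ _ _))).eventually_ge_atTop _
  refine (hfr.and_eventually hlarge).mono fun N hN => ?_
  obtain ⟨hN1, hN2⟩ := hN
  have hsub : (Finset.range N).filter (fun n => Pool.Agent.H749R6.CM.Q (q1 lam) (q2 Lam) m (α ^ b n)) ⊆
      (Finset.range N).filter (fun n => ExactCount lam Lam m (α ^ b n)) ∪ Finset.range n₀ := by
    intro n hn
    rw [Finset.mem_filter] at hn
    rw [Finset.mem_union, Finset.mem_filter]
    by_cases h : n < n₀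
    · exact Or.inr (Finset.mem_range.2 h)
    · left
      refine ⟨hn.1, mono r2 hLam r3 ?_ hn.2⟩
      exact Real.one_le_rpow hα1.le (hn₀ n (not_lt.1 h))
  have hcard := (Finset.card_le_card hsub).trans (Finset.card_union_le _ _)
  rw [Finset.card_range] at hcard
  have hcard' : (((Finset.range N).filter
      (fun n => Pool.Agent.H749R6.CM.Q (q1 lam) (q2 Lam) m (α ^ b n))).card : ℝ) ≤
      (((Finset.range N).filter (fun n => ExactCount lam Lam m (α ^ b n))).card : ℝ) + n₀ := by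
    exact_mod_cast hcard
  linarith

end Pool.Agent.Results.MP_3bc45c_nt.ExactCountsAtPowers
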