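import Mathlib
import Pool.Agent.H618R2.GR.Main

/-!
# Long gaps between the `n` with `n² + b²` prime, simultaneously at all multiples of an integer

There is `c > 0` such that for all large `Y`, all `M ≥ Y` and all `J, H, K ≥ 1` with `J H K ≤ c log Y log log Y` some integer
`x` with `M < x ≤ M + Y` has this property: no value `n² + b²` with `b ≤ K` and `|n - j x| ≤ H` for some `j ≤ J` is prime;
more precisely all these values have a prime factor at most `Y ^ (1/10)` (and are larger).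
-/

set_option autoImplicit false

namespace Pool.Agent.Results.MP_484c84_nt.GapsAtAllMultiples

/-- The values `n² + b²` have a proper prime factor at most `z`, for all `n` at distance at most `H` from one of
`x, 2 x, …, J x` and all `1 ≤ b ≤ K`. -/
def Composite (z : ℝ) (x : ℤ) (J H K : ℕ) : Prop :=
  ∀ j : ℕ, 1 ≤ j → j ≤ J → ∀ n : ℤ, |n - j * x| ≤ H → ∀ b : ℕ, 1 ≤ b → b ≤ K →
    ∃ p : ℕ, p.Prime ∧ (p : ℝ) ≤ z ∧ (p : ℤ) ∣ n ^ 2 + (b : ℤ) ^ 2 ∧ (p : ℤ) < n ^ 2 + (b : ℤ) ^ 2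

/-- Simultaneous long gaps at `x, 2 x, …, J x` for the primes `n² + b²`, `b ≤ K`, in every interval `(M, M + Y]`,
`M ≥ Y`. -/
theorem result : ∃ c : ℝ, 0 < c ∧ ∃ Y₀ : ℝ, ∀ Y : ℝ, Y₀ ≤ Y → ∀ M : ℤ, Y ≤ M →
    ∀ J H K : ℕ, 1 ≤ J → 1 ≤ H → 1 ≤ K →
      (J : ℝ) * H * K ≤ c * Real.log Y * Real.log (Real.log Y) →
      ∃ x : ℤ, M < x ∧ (x : ℝ) ≤ M + Y ∧ Composite (Y ^ (1 / 10 : ℝ)) x J H K := by
  obtain ⟨c, hc, Y₀, h⟩ := Pool.Agent.H618R2.GR.rectangles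
  refine ⟨c, hc, Y₀, fun Y hY M hM J H K hJ hH hK hp => ?_⟩
  obtain ⟨x, h1, h2, h3⟩ := h Y hY M hM J H K hJ hH hK hp
  refine ⟨x, h1, h2, fun j j1 j2 n hn b b1 b2 => ?_⟩
  obtain ⟨p, q1, q2, q3, q4⟩ := h3 j j1 j2 (n - j * x) hn b b1 b2
  have e : (j : ℤ) * x + (n - j * x) = n := by ring
  rw [e] at q3 q4
  exact ⟨p, q1, q2, q3, q4⟩

end Pool.Agent.Results.MP_484c84_nt.GapsAtAllMultiples
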