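import Pool.Agent.Q46.PV.Inst
import Pool.Agent.Q46.GQ.Sumset

/-!
# Long strings of composite values of a polynomial around functions of sums of two arbitrary sets of residues

Let `f` be an irreducible polynomial with integer coefficients and positive leading coefficient, for instance
`f = X^3 + k`, `k` not a cube.  Let `A`, `B` be ARBITRARY sets of residues modulo a large prime `p` with
`|A| |B| ≥ p^(1 + ε)`, `|A| ≥ p^(1/2 + ε)`, and `u`, `v` arbitrary functions modulo `p`.  For many pairs `(a, b)` in `A × B`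
the values `f(m)` at all the integers `m` at distance at most `κ log p log log p` of the least residue of
`F(a + b) + u(a) + v(b)` are composite; here `F` is a polynomial of given degree `≥ 2`, or `F(x) = c / x`.

Design and proof: helper46 (modules `Pool.Agent.Q46.PV.*`: the covering criterion for vectors of integers and values of
polynomials, on the covering theorem `Pool.Agent.H474R2.PG` of the starting repository; `Pool.Agent.Q46.GQ.*`), with
Weil's bounds of the starting repository.
-/

set_option autoImplicit false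

open Polynomial Finset

namespace Pool.Agent.Results.MP_4d57ea_nt.FunctionsOnSumsets

/-- every value of `f` at an integer at distance at most `K` of `x` has a prime factor smaller than the value (in
particular none of these values is a prime) -/
def Composite (f : ℤ[X]) (K : ℝ) (x : ℤ) : Prop :=
  ∀ k : ℤ, |(k : ℝ)| ≤ K → ∃ q : ℕ, q.Prime ∧ (q : ℤ) ∣ f.eval (x + k) ∧ (q : ℤ) < f.eval (x + k)

/-- the length `log x log log x` -/
noncomputable def len (x : ℝ) : ℝ := Real.log x * Real.log (Real.log x)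

open Classical in
/-- the number of pairs `z` in `S` for which the least residue `y` of `F z` satisfies `s ≤ y < s + N` and the values of
`f` near `y` are composite -/
noncomputable def hits (f : ℤ[X]) {p : ℕ} (S : Finset (ZMod p × ZMod p)) (F : ZMod p × ZMod p → ZMod p) (s N : ℕ)
    (K : ℝ) : ℕ :=
  (S.filter (fun z => (s ≤ (F z).val ∧ (F z).val < s + N) ∧ Composite f K (F z).val)).card

/-- Let `f` be irreducible of positive degree with positive leading coefficient, `d ≥ 2` and `0 < ε ≤ 1`. There are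
`κ > 0` and `p₀` such that for all primes `p ≥ p₀`, all sets `A`, `B` of residues
modulo `p` and all intervals `[s, s + N)` in `[0, p)` with `N² |A| |B| ≥ p^(3 + ε)` and `N² |A| ≥ p^(5/2 + ε)` (for `N = p`:
`|A| |B| ≥ p^(1 + ε)` and `|A| ≥ p^(1/2 + ε)`), and for all functions `u`, `v` modulo `p`:

1. for every polynomial `F` modulo `p` of degree `d` at least `(N / p) |A| |B| p^(-ε)` pairs `(a, b)` in `A × B` are such
that the least residue `y` of `F(a + b) + u(a) + v(b)` lies in `[s, s + N)` and `f(m)` is composite for all integers `m`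
with `|m - y| ≤ κ log p log log p`;

2. for every `c ≠ 0` the same holds for `c / (a + b) + u(a) + v(b)` and the pairs with `a + b ≠ 0`. -/
theorem result : ∀ f : ℤ[X], Irreducible f → 0 < f.natDegree → 0 < f.leadingCoeff →
    ∀ d : ℕ, 2 ≤ d → ∀ ε : ℝ, 0 < ε → ε ≤ 1 → ∃ κ : ℝ, 0 < κ ∧ ∃ p₀ : ℕ, ∀ p : ℕ, p₀ ≤ p → ∀ _ : Fact p.Prime,
    ∀ (A B : Finset (ZMod p)) (u v : ZMod p → ZMod p) (s N : ℕ), s + N ≤ p →
      (p : ℝ) ^ (3 + ε) ≤ (N : ℝ) ^ 2 * A.card * B.card → (p : ℝ) ^ (5 / 2 + ε) ≤ (N : ℝ) ^ 2 * A.card →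
      (∀ F : (ZMod p)[X], F.natDegree = d →
        (N : ℝ) * A.card * B.card / p * (p : ℝ) ^ (-ε) ≤
          hits f (A ×ˢ B) (fun z => F.eval (z.1 + z.2) + u z.1 + v z.2) s N (κ * len p)) ∧
      ∀ c : ZMod p, c ≠ 0 → (N : ℝ) * A.card * B.card / p * (p : ℝ) ^ (-ε) ≤
        hits f ((A ×ˢ B).filter (fun z => z.1 + z.2 ≠ 0)) (fun z => c * (z.1 + z.2)⁻¹ + u z.1 + v z.2) s N
          (κ * len p) := by
  classical
  intro f hf hd0 hl d hd ε h0 h1
  obtain ⟨κ₁, hκ₁, p₁, hp₁⟩ := Pool.Agent.Q46.GQ.sumset_poly (Pool.Agent.Q46.PV.QP f)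
    (Pool.Agent.Q46.PV.CH_QP f hf hd0 hl) d hd ε h0 h1
  obtain ⟨κ₂, hκ₂, p₂, hp₂⟩ := Pool.Agent.Q46.GQ.sumset_inv (Pool.Agent.Q46.PV.QP f)
    (Pool.Agent.Q46.PV.CH_QP f hf hd0 hl) ε h0 h1
  have hpos : ∀ᶠ p : ℕ in Filter.atTop, 0 ≤ len p := by
    have e1 : Filter.Tendsto (fun p : ℕ => Real.log (Real.log (p : ℝ))) Filter.atTop Filter.atTop :=
      Real.tendsto_log_atTop.comp (Real.tendsto_log_atTop.comp tendsto_natCast_atTop_atTop)
    have e2 : Filter.Tendsto (fun p : ℕ => Real.log (p : ℝ)) Filter.atTop Filter.atTop :=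
      Real.tendsto_log_atTop.comp tendsto_natCast_atTop_atTop
    filter_upwards [e1.eventually_ge_atTop 0, e2.eventually_ge_atTop 0] with p hp hp2
    unfold len
    positivity
  obtain ⟨p₃, hp₃⟩ := Filter.eventually_atTop.1 hpos
  refine ⟨min κ₁ κ₂, lt_min hκ₁ hκ₂, max p₁ (max p₂ p₃), ?_⟩
  intro p hp hpp A B u v s N hs h2 h3
  have q1 := (le_max_left _ _).trans hp
  have q2 := (le_max_left _ _).trans ((le_max_right _ _).trans hp)
  have q3 := (le_max_right _ _).trans ((le_max_right _ _).trans hp)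
  have hsc := hp₃ p q3
  have hmono : ∀ (S : Finset (ZMod p × ZMod p)) (F : ZMod p × ZMod p → ZMod p) (κ : ℝ), min κ₁ κ₂ ≤ κ →
      (Pool.Agent.Q46.GQ.good1 (Pool.Agent.Q46.PV.QP f κ p) S (fun z => (F z).val) s N).card ≤
        hits f S F s N (min κ₁ κ₂ * len p) := by
    intro S F κ hκ
    unfold hits Pool.Agent.Q46.GQ.good1
    apply card_le_card
    intro z hz
    rw [mem_filter, mem_Ico] at hz
    rw [mem_filter]
    refine ⟨hz.1, hz.2.1, fun k hk => hz.2.2 k (hk.trans ?_)⟩
    exact mul_le_mul_of_nonneg_right hκ hsc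
  constructor
  · intro F hF
    refine (hp₁ p q1 hpp.out A B F hF u v s N hs h2 h3).trans ?_
    exact_mod_cast hmono _ _ κ₁ (min_le_left _ _)
  · intro c hc
    refine (hp₂ p q2 hpp.out A B c hc u v s N hs h2 h3).trans ?_
    exact_mod_cast hmono _ _ κ₂ (min_le_right _ _)

end Pool.Agent.Results.MP_4d57ea_nt.FunctionsOnSumsets
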