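import Pool.Agent.Q26.BH.Omega

set_option autoImplicit false

/-!
# Lower bound for the error term in the quantitative Hypothesis H for one polynomial
-/

namespace Pool.Agent.Results.MP_51e72e_nt.ErrorTermShortIntervals

open Polynomial Finset

/-- Let `f` be an irreducible integer polynomial of positive degree with positive leading coefficient and let
`π_f(N)` be the number of `1 ≤ n ≤ N` with `|f(n)|` prime. There are `t₀` (with `f ≥ 3` on `[t₀, ∞)`), `c > 0` and `Y₀`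
such that for all real `C ≥ 0`, `D` and `Y ≥ Y₀` and every integer `x ≥ Y` some integer `N ∈ [x, x + Y]` satisfies
`|π_f(N) - (C ∫_{t₀}^N dt / log f(t) + D)| ≥ c C (log Y / log x) log log Y`. -/
theorem result (f : ℤ[X]) (hf : Irreducible f) (hd : 0 < f.natDegree) (hl : 0 < f.leadingCoeff) :
    ∃ t₀ : ℝ, (∀ t : ℝ, t₀ ≤ t → 3 ≤ (f.map (Int.castRingHom ℝ)).eval t) ∧
      ∃ c : ℝ, 0 < c ∧ ∃ Y₀ : ℝ, ∀ (C D Y : ℝ) (x : ℕ), 0 ≤ C → Y₀ ≤ Y → Y ≤ x →
        ∃ N : ℕ, x ≤ N ∧ (N : ℝ) ≤ x + Y ∧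
          c * C * (Real.log Y / Real.log x) * Real.log (Real.log Y) ≤
            |(((Icc 1 N).filter (fun n : ℕ => (f.eval (n : ℤ)).natAbs.Prime)).card : ℝ) -
              (C * (∫ t in t₀..(N : ℝ), 1 / Real.log ((f.map (Int.castRingHom ℝ)).eval t)) + D)| :=
  Pool.Agent.Q26.BH.omega f hf hd hl

end Pool.Agent.Results.MP_51e72e_nt.ErrorTermShortIntervals
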