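import Pool.Agent.TH977.PW.Inst

/-!
# The neighbourhoods of the prime values of an admissible quadratic polynomial

Let `f(m) = a m ^ 2 + b m + c` be admissible. Let `R r` be the set of the `m` for which all prime factors of `f(m)` are
larger than `m ^ (1/r)`; it contains all large `m` with `|f(m)|` prime. Let `A` be an ARBITRARY subset of `R r`, for
example the set of all `m` with `|f(m)|` prime. In every short interval `(X, X + Y]`, `X ^ θ ≤ Y ≤ X / 2`, all but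
`ε Y / log X` of the elements `m` of `A` are regular points of `A`: the numbers of elements of `A` in ALL intervals
around `m` of length between `log X / c` and `Y` have the right order, and `A` has constant density up to `δ` on both
sides of `m` at all but `B (ε, δ)` dyadic scales.
-/

set_option autoImplicit false

namespace Pool.Agent.Results.MP_a1177c_nt.RegularPrimeValues

open Finset Filter

open Classical in
/-- the number of the elements of `A` in `(u, v]` -/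
noncomputable def N (A : Set ℕ) (u v : ℕ) : ℕ := ((Ioc u v).filter (fun m => m ∈ A)).card

/-- All intervals `(m - s, m + t]` with `s, t ≤ Y` of length at least `log X / c` contain the right order of elements
of `A`. -/
def RightOrder (A : Set ℕ) (c : ℝ) (X Y m : ℕ) : Prop :=
  ∀ s t : ℕ, s ≤ Y → t ≤ Y → Real.log X ≤ c * (s + t) →
    c * (s + t) / Real.log X ≤ N A (m - s) (m + t) ∧
      (N A (m - s) (m + t) : ℝ) ≤ (s + t) / (c * Real.log X)

/-- Up to `δ`, `A` has a constant density on both sides of `m` up to the distance `2 ^ j`. -/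
def ConstantDensity (A : Set ℕ) (c δ : ℝ) (X m j : ℕ) : Prop :=
  ∃ lam : ℝ, c ≤ lam ∧ lam ≤ 1 / c ∧ ∀ s t : ℕ, s ≤ 2 ^ j → t ≤ 2 ^ j →
    |(N A (m - s) (m + t) : ℝ) - lam * (s + t) / Real.log X| ≤ δ * 2 ^ j / Real.log X

open Classical in
/-- the number of the scales `log X ≤ 2 ^ j ≤ Y` without this property -/
noncomputable def badScales (A : Set ℕ) (c δ : ℝ) (X Y m : ℕ) : ℕ :=
  ((range (Nat.log 2 Y + 1)).filter (fun j => Real.log X ≤ (2 : ℝ) ^ j ∧ ¬ ConstantDensity A c δ X m j)).card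

/-- The elements of `A` that are not regular points of `A`. -/
def Irregular (A : Set ℕ) (c δ : ℝ) (B X Y : ℕ) : Set ℕ :=
  {m | m ∈ A ∧ ¬ (RightOrder A c X Y m ∧ badScales A c δ X Y m ≤ B)}

/-- the set of the `m` for which all prime factors of `a m ^ 2 + b m + c` are larger than `m ^ (1/r)` -/
def R (a b c : ℤ) (r : ℕ) : Set ℕ :=
  {m | ∀ p : ℕ, p.Prime → (p : ℤ) ∣ a * (m : ℤ) ^ 2 + b * m + c → (m : ℝ) ^ (1 / (r : ℝ)) < (p : ℝ)}

lemma N_eq : N = Pool.Agent.TH977.PW.N := by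
  funext A u v
  unfold N Pool.Agent.TH977.PW.N
  rfl

lemma RightOrder_iff (A : Set ℕ) (c : ℝ) (X Y m : ℕ) :
    RightOrder A c X Y m ↔ Pool.Agent.TH977.PW.RightOrder A 1 c X Y m := by
  unfold RightOrder Pool.Agent.TH977.PW.RightOrder
  simp only [pow_one, N_eq]

lemma ConstantDensity_iff (A : Set ℕ) (c δ : ℝ) (X m j : ℕ) :
    ConstantDensity A c δ X m j ↔ Pool.Agent.TH977.PW.ConstantDensity A 1 c δ X m j := by
  unfold ConstantDensity Pool.Agent.TH977.PW.ConstantDensity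
  simp only [pow_one, N_eq]

open Classical in
lemma badScales_eq (A : Set ℕ) (c δ : ℝ) (X Y m : ℕ) :
    badScales A c δ X Y m = Pool.Agent.TH977.PW.badScales A 1 c δ X Y m := by
  unfold badScales Pool.Agent.TH977.PW.badScales
  congr 1
  apply filter_congr
  intro j _
  rw [pow_one, ConstantDensity_iff]

lemma Irregular_eq (A : Set ℕ) (c δ : ℝ) (B X Y : ℕ) :
    Irregular A c δ B X Y = Pool.Agent.TH977.PW.Irregular A 1 c δ B X Y := by
  unfold Irregular Pool.Agent.TH977.PW.Irregular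
  simp only [RightOrder_iff, badScales_eq]

/-- values at large arguments are large -/
lemma large (a b c : ℤ) (ha : 0 < a) : ∀ m : ℕ, b.natAbs + c.natAbs + 2 ≤ m →
    (m : ℤ) < a * (m : ℤ) ^ 2 + b * m + c := by
  intro m hm
  have h1 : -(b.natAbs : ℤ) ≤ b := by rw [Int.natCast_natAbs]; exact neg_abs_le b
  have h2 : -(c.natAbs : ℤ) ≤ c := by rw [Int.natCast_natAbs]; exact neg_abs_le c
  have h3 : (b.natAbs : ℤ) + c.natAbs + 2 ≤ m := by exact_mod_cast hm
  have hb : (0 : ℤ) ≤ b.natAbs := Int.natCast_nonneg _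
  have hc : (0 : ℤ) ≤ c.natAbs := Int.natCast_nonneg _
  have h4 : (m : ℤ) ^ 2 ≤ a * (m : ℤ) ^ 2 := by nlinarith [sq_nonneg (m : ℤ)]
  nlinarith

/-- **The neighbourhoods of the prime values of a quadratic polynomial.** -/
theorem result (a b c : ℤ) (ha : 0 < a)
    (hg : ∀ p : ℕ, p.Prime → ¬ ((p : ℤ) ∣ a ∧ (p : ℤ) ∣ b ∧ (p : ℤ) ∣ c))
    (hpar : ¬ (Even (a + b) ∧ Even c)) (hD : ¬ IsSquare (b ^ 2 - 4 * a * c))
    (θ : ℝ) (hθ : 0 < θ) (hθ1 : θ ≤ 1) :
    ∃ r₀ : ℕ, 2 ≤ r₀ ∧ ∀ r : ℕ, r₀ ≤ r →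
      (∀ᶠ m : ℕ in atTop, (a * (m : ℤ) ^ 2 + b * m + c).natAbs.Prime → m ∈ R a b c r) ∧
      (∃ κ : ℝ, 0 < κ ∧ ∀ᶠ X : ℕ in atTop, ∀ Y : ℕ, (X : ℝ) ^ θ ≤ Y → Y ≤ X →
        κ * Y / Real.log X ≤ N {m | m ∈ R a b c r ∧
          (a * (m : ℤ) ^ 2 + b * m + c).natAbs.primeFactorsList.length ≤ r} X (X + Y)) ∧
      ∀ ε : ℝ, 0 < ε → ∃ c₁ : ℝ, 0 < c₁ ∧ ∀ δ : ℝ, 0 < δ → ∃ B : ℕ,
        ∀ᶠ X : ℕ in atTop, ∀ Y : ℕ, (X : ℝ) ^ θ ≤ Y → 2 * Y ≤ X → ∀ A : Set ℕ, A ⊆ R a b c r →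
          (N (Irregular A c₁ δ B X Y) X (X + Y) : ℝ) ≤ ε * Y / Real.log X := by
  have hSys : Pool.Agent.W123.RU.Poly.Sys (fun _ : Fin 1 => Pool.Agent.TH464.PW.quad a b c) :=
    ⟨fun _ => Pool.Agent.TH464.PW.quad_irr a b c ha.ne' hg hD,
      fun _ => by rw [Pool.Agent.TH464.PW.quad_deg a b c ha.ne']; norm_num,
      fun _ => by rw [Pool.Agent.TH464.PW.quad_lead a b c ha.ne']; exact ha,
      fun _ _ _ => Subsingleton.elim _ _,
      fun p hp => by
        obtain ⟨m, hm⟩ := Pool.Agent.TH464.PW.quad_adm a b c hg hpar p hp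
        exact ⟨m, fun _ => hm⟩⟩
  obtain ⟨r0, hr0, h⟩ := Pool.Agent.TH977.PW.final (fun _ : Fin 1 => Pool.Agent.TH464.PW.quad a b c) hSys
    (fun r => R a b c r)
    (fun r => {m | m ∈ R a b c r ∧ (a * (m : ℤ) ^ 2 + b * m + c).natAbs.primeFactorsList.length ≤ r})
    1 (by rw [Fintype.card_fin])
    (fun r m _ hm i p hp hd => by
      rw [Pool.Agent.TH464.PW.quad_eval] at hd
      exact hm p hp hd)
    (fun r m _ h1 h2 => by
      refine ⟨fun p hp hd => h1 0 p hp ?_, ?_⟩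
      · rw [Pool.Agent.TH464.PW.quad_eval]
        exact hd
      · have h3 := h2 0
        rw [Pool.Agent.TH464.PW.quad_eval] at h3
        exact h3) θ hθ hθ1
  refine ⟨r0, hr0, fun r hr => ⟨?_, ?_, ?_⟩⟩
  · have hr2 : 2 ≤ r := hr0.trans hr
    filter_upwards [eventually_ge_atTop (b.natAbs + c.natAbs + 2)] with m hm hprime p hp hd
    have h1 := large a b c ha m hm
    have h2 : p ∣ (a * (m : ℤ) ^ 2 + b * m + c).natAbs := Int.natCast_dvd.1 hd
    have h3 := (Nat.prime_dvd_prime_iff_eq hp hprime).1 h2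
    have h4 : m ≤ p := by
      rw [h3]
      zify
      exact (h1.trans_le (le_abs_self _)).le
    exact Pool.Agent.TH977.PW.rpow_lt_of_le r m p hr2 (by omega) h4
  · obtain ⟨κ, hκ, h1⟩ := (h r hr).1
    refine ⟨κ, hκ, ?_⟩
    filter_upwards [h1] with X hX Y hY1 hY2
    have h2 := hX Y hY1 hY2
    rw [pow_one] at h2
    rw [N_eq]
    exact h2
  · intro ε hε
    obtain ⟨c₁, hc₁, h1⟩ := (h r hr).2 ε hε
    refine ⟨c₁, hc₁, fun δ hδ => ?_⟩
    obtain ⟨B, h2⟩ := h1 δ hδ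
    refine ⟨B, ?_⟩
    filter_upwards [h2] with X hX Y hY1 hY2 A hA
    have h3 := hX Y hY1 hY2 A hA
    rw [pow_one] at h3
    rw [N_eq, Irregular_eq]
    exact h3

end Pool.Agent.Results.MP_a1177c_nt.RegularPrimeValues
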