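import Pool.Agent.Q46.SL.Tools
import Pool.Agent.Q46.SL.Hyp

/-!
# The numbers `x` and `a_i x + 1` are almost primes for both coordinates of points of modular hyperbolas

Let `α_j x + β_j`, `j < l`, be linear forms with coefficients of absolute value at most `p ^ B`, for instance `x, a_1 x + 1, ..., a_s x + 1`
(`l = s + 1`). We look for `x` such that all of them have at most `R` prime factors, all larger than `p ^ κ`.

Let `p` be a large prime. In every box `[A1, A1 + N1) × [A2, A2 + N2)` with `N1 N2 ≥ p ^ (3 / 2 + ε)` (where Weil's bound gives about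
`N1 N2 / p` points of the modular hyperbola `x y ≡ c (mod p)`) there are many points BOTH of whose coordinates, a number and a
multiple of its inverse modulo `p`, have the property. Here the property is: all `α_j x + β_j` have at most `R` prime factors, all larger than `p ^ κ`. The lower bound is of the expected order of magnitude (`m = 0`).

In addition the numbers avoid arbitrary residue classes, at most `m` classes `E q` modulo each prime `q ≤ z`, as long as there is no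
local obstruction; `m = 0` is the case without classes. The exponent `κ`, the number `R` and the constant `cc` do not depend on the
classes.

Design and proof: helper46 (modules `Pool.Agent.Q46.SV.*`, `Pool.Agent.Q46.SL.*`): the vectors of the residues in question are
equidistributed modulo all small integers with a power saving, by bounds for exponential sums; the fundamental lemma of the
sieve is applied to the vectors.
-/

set_option autoImplicit false

namespace Pool.Agent.Results.MP_bca3e5_nt.ModularHyperbolas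

open Finset Polynomial
open Pool.Agent.Q46.SL hiding Almost

/-- `n` is not zero and has at most `R` prime factors (counted with multiplicity), all larger than `z` -/
def Almost (z : ℝ) (R : ℕ) (n : ℤ) : Prop :=
  n ≠ 0 ∧ n.natAbs.primeFactorsList.length ≤ R ∧ ∀ q : ℕ, q.Prime → (q : ℤ) ∣ n → z < q

/-- `x` is positive, all `α_j x + β_j` have at most `R` prime factors, all larger than `z`, and `x` avoids the classes `E q`, `q ≤ z` -/
def Good {l : ℕ} (α β : Fin l → ℤ) (z : ℝ) (R : ℕ) (E : ℕ → Finset ℕ) (x : ℤ) : Prop :=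
  0 < x ∧ (∀ j, Almost z R (α j * x + β j)) ∧ ∀ q : ℕ, q.Prime → (q : ℝ) ≤ z → (x % q).toNat ∉ E q

/-- `E q` has at most `m` elements, and some residue `a` outside `E q` has `q ∤ α_j a + β_j` for all `j` -/
def Adm {l : ℕ} (α β : Fin l → ℤ) (m : ℕ) (E : ℕ → Finset ℕ) : Prop :=
  ∀ q : ℕ, q.Prime → (E q).card ≤ m ∧ ∃ a < q, a ∉ E q ∧ ∀ j, ¬ (q : ℤ) ∣ α j * a + β j

/-- the polynomials and the classes -/
noncomputable def sysE {l : ℕ} (α β : Fin l → ℤ) (m : ℕ) (E : ℕ → Finset ℕ) (hE : Adm α β m E) : PE l m l where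
  f := fun j => C (α j) * X + C (β j)
  E := E
  deg := by
    have h1 : ∀ j : Fin l, (C (α j) * X + C (β j) : ℤ[X]).natDegree ≤ 1 := fun j => by compute_degree
    refine (sum_le_sum fun j _ => h1 j).trans ?_
    simp
  adm := by
    intro q hq
    obtain ⟨h1, a, ha, haE, h2⟩ := hE q hq
    refine ⟨h1, a, ha, haE, fun j => ?_⟩
    simpa using h2 j

lemma good_of {l : ℕ} {α β : Fin l → ℤ} {m B : ℕ} {E : ℕ → Finset ℕ} (hE : Adm α β m E) {κ M : ℝ} (hM : (2 : ℝ) ≤ M)
    (hh : ∀ j, |(α j : ℝ)| ≤ M ^ B ∧ |(β j : ℝ)| ≤ M ^ B) {x : ℤ} (hN : Near (B + 1) (sysE α β m E hE) κ M x) (hx : (x : ℝ) ≤ M) :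
    Good α β (M ^ κ) ⌊(((B + 1) : ℕ) + (l : ℕ) + 1 : ℝ) / κ⌋₊ E x := by
  obtain ⟨h0, h12⟩ := hN
  obtain ⟨h1, h2⟩ := h12 (by
    intro j
    have hB : (1 : ℝ) ≤ M ^ B := one_le_pow₀ (by linarith)
    refine cb_mono (cb_add (cb_CX (α j)) (cb_C (β j))) ?_
    rw [pow_succ]
    have h3 := (hh j).1
    have h4 := (hh j).2
    nlinarith) hx
  refine ⟨h0, fun j => ?_, h2⟩
  simpa [sysE, Almost, Pool.Agent.Q46.SL.Almost] using h1 j

/-- Systems of linear forms are almost prime at both coordinates of many points of modular hyperbolas. -/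
theorem result (l B m : ℕ) (ε : ℝ) (hε : 0 < ε) (hε1 : ε ≤ 1) :
    ∃ κ : ℝ, 0 < κ ∧ ∃ cc : ℝ, 0 < cc ∧ ∃ R p₀ : ℕ, ∀ p : ℕ, p₀ ≤ p → p.Prime → ∀ α β : Fin l → ℤ, (∀ j, |(α j : ℝ)| ≤ (p : ℝ) ^ B ∧ |(β j : ℝ)| ≤ (p : ℝ) ^ B) → ∀ E : ℕ → Finset ℕ, Adm α β m E → ∀ c : ℤ, ¬ (p : ℤ) ∣ c → ∀ A1 N1 A2 N2 : ℕ, A1 + N1 ≤ p → A2 + N2 ≤ p →
      (p : ℝ) ^ (3 / 2 + ε) ≤ (N1 : ℝ) * N2 →
      ∃ G : Finset (ℕ × ℕ), cc * ((N1 : ℝ) * N2 / p) / Real.log p ^ (2 * (m + l)) ≤ G.card ∧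
        ∀ z ∈ G, (A1 ≤ z.1 ∧ z.1 < A1 + N1) ∧ (A2 ≤ z.2 ∧ z.2 < A2 + N2) ∧ (p : ℤ) ∣ z.1 * z.2 - c ∧
          Good α β ((p : ℝ) ^ κ) R E z.1 ∧ Good α β ((p : ℝ) ^ κ) R E z.2 := by
  obtain ⟨κ, hκ, cc, hcc, p₀, h⟩ := Pool.Agent.Q46.SL.hyperbola (Near (B + 1) : PE l m l → ℝ → ℝ → ℤ → Prop)
    (lg (m + l)) (fun r _ => csN l m l (B + 1) r) ε hε hε1
  refine ⟨κ, hκ, cc, hcc, ⌊(((B + 1) : ℕ) + (l : ℕ) + 1 : ℝ) / κ⌋₊, max 2 p₀, ?_⟩
  intro p hp hpp α β ht E hE c hc A1 N1 A2 N2 hA1 hA2 hN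
  have hpr : (2 : ℝ) ≤ p := by exact_mod_cast (le_max_left _ _).trans hp
  obtain ⟨G, hG, hG2⟩ := h p ((le_max_right _ _).trans hp) (sysE α β m E hE) hpp c hc A1 N1 A2 N2 hA1 hA2 hN
  refine ⟨G, le_trans (cnt le_rfl (by positivity) (log0 p) _ _) hG, ?_⟩
  intro z hz
  obtain ⟨a1, a2, a3, a4, a5⟩ := hG2 z hz
  exact ⟨a1, a2, a3, good_of hE hpr ht a4 (by exact_mod_cast (by omega : z.1 ≤ p)), good_of hE hpr ht a5 (by exact_mod_cast (by omega : z.2 ≤ p))⟩

end Pool.Agent.Results.MP_bca3e5_nt.ModularHyperbolas
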