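import Mathlib
import Pool.Agent.Q51.CP.CliqueForms

/-!
# Polynomially large families of linear forms all of whose equations `a' p - a q = a' b - a b'` are solvable

Let `V` be a finite set of linear forms `a n + b`, `a > 0`, `b ≥ 0`, pairwise non-proportional, any 45 of
them without a fixed prime divisor. Then for every large `x` there is `W ⊆ V` with at least
`17 |V| ^ (1/44) - 44` elements such that EVERY two forms `a n + b`, `a' n + b'` of `W` take prime values
`p`, `q` at the same time, for at least `x ^ (1 - ε)` of the `n ≤ x`; then `a' p - a q = a' b - a b'`. One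
`W` has this property for arbitrarily large `x`, for all pairs at the same time and all `ε > 0`, so that
all these equations have infinitely many solutions in primes.

Example: the forms `a n + 1`, `a ∈ A`, for any finite set `A` of positive integers: for all `a, a'` in a
subset of `A` with at least `17 |A| ^ (1/44) - 44` elements the equation `a' p - a q = a' - a` has
infinitely many prime solutions, and `a / a' = (p - 1) / (q - 1)`.

Method: `DHL[45,2]` for linear forms (`Pool.Agent.Y826.ZG.dhl45L`) and Ramsey's theorem with the bound of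
Erdős and Szekeres.
-/

set_option autoImplicit false

namespace Pool.Agent.Results.MP_bf63dc_nt.PolynomialCliques

open Finset Filter

/-- the numbers `n ≤ x` at which both `a n + b` and `a' n + b'` are primes `p` and `q`; then the primes
`p, q` solve the equation `a' p - a q = a' b - a b'` -/
def solutions (a b a' b' : ℕ) (x : ℝ) : Set ℕ :=
  {n : ℕ | (n : ℝ) ≤ x ∧ ∃ p q : ℕ, p.Prime ∧ q.Prime ∧ p = a * n + b ∧ q = a' * n + b' ∧
    (a' * p - a * q : ℤ) = a' * b - a * b'}

theorem sol_eq (f g : ℕ × ℕ) (x : ℝ) : Pool.Agent.Q51.CPR.SS f g x = solutions f.1 f.2 g.1 g.2 x := by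
  ext n
  constructor
  · rintro ⟨h0, hp, hq⟩
    exact ⟨h0, _, _, hp, hq, rfl, rfl, by push_cast; ring⟩
  · rintro ⟨h0, p, q, hp, hq, rfl, rfl, -⟩
    exact ⟨h0, hp, hq⟩

/-- **Main result.** A pair `f = (a, b)` stands for the linear form `a n + b`. -/
theorem result (V : Finset (ℕ × ℕ)) (ha : ∀ f ∈ V, 0 < f.1)
    (hne : ∀ f ∈ V, ∀ g ∈ V, f ≠ g → f.1 * g.2 ≠ g.1 * f.2)
    (hloc : ∀ S ⊆ V, S.card = 45 → ∀ p : ℕ, p.Prime → ∃ n : ℕ, ∀ f ∈ S, ¬ p ∣ f.1 * n + f.2) :
    (∀ ε : ℝ, 0 < ε → ∀ᶠ x : ℝ in atTop, ∃ W ⊆ V,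
      17 * (V.card : ℝ) ^ (1 / 44 : ℝ) - 44 ≤ (W.card : ℝ) ∧
      ∀ f ∈ W, ∀ g ∈ W, f ≠ g → x ^ (1 - ε) ≤ ((solutions f.1 f.2 g.1 g.2 x).ncard : ℝ)) ∧
    ∃ W ⊆ V, 17 * (V.card : ℝ) ^ (1 / 44 : ℝ) - 44 ≤ (W.card : ℝ) ∧
      ∀ ε : ℝ, 0 < ε → ∃ᶠ x : ℝ in atTop, ∀ f ∈ W, ∀ g ∈ W, f ≠ g →
        x ^ (1 - ε) ≤ ((solutions f.1 f.2 g.1 g.2 x).ncard : ℝ) := by
  have h := Pool.Agent.Q51.CPR.clique_forms V ha hne hloc
  simpa only [sol_eq] using h

end Pool.Agent.Results.MP_bf63dc_nt.PolynomialCliques
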