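import Pool.Agent.Q20.AS.Main

set_option autoImplicit false

/-!
# Mixed Cunningham chains without any prime: arbitrary branches of the tree of the maps `x ↦ 2 x + 1`, `x ↦ 2 x - 1`

A chain of the first kind iterates `x ↦ 2 x + 1`, a chain of the second kind iterates `x ↦ 2 x - 1`. For a finite word `w` in
the signs let `node w n` be the last term of the mixed chain which starts with `n` and applies `x ↦ 2 x + 1` or `x ↦ 2 x - 1`
according to the letters of `w`.

Let `C`, `δ > 0`, `J`, `K` be fixed. For all large `X`, EVERY set `S` of at most `C log X` words `w` with `2 ^ |w| ≤ X ^ K`, all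
`y ≤ X ^ K` and all residue classes `r` modulo `q ≤ J` there is an `n ≡ r (mod q)` in `[y, y + X ^ δ]` such that all the
numbers `node w n`, `w ∈ S`, have a prime factor `p ≤ X ^ δ` smaller than `|node w n|`. For example:

* for every infinite sequence of signs the first `k ≤ C log X` terms of the mixed chain of `n` are composite, and this for
  any bounded number of sign sequences simultaneously;
* all terms of ALL mixed chains which start with `n` are composite in the first `h` generations, `2 ^ (h + 1) ≤ C log X`.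

Proof: `Pool.Agent.Q20.AS.forms`, after the project AC of the starting repository (helper410 and the helpers of that
project), with `node w n = 2 ^ |w| n + c`, `|c| < 2 ^ |w|`.
-/

namespace Pool.Agent.Results.MP_c183ae_nt.MixedChainsWithoutPrimes

open Filter

/-- one step of a mixed Cunningham chain -/
def step (x : ℤ) (b : Bool) : ℤ := if b then 2 * x + 1 else 2 * x - 1

/-- the last term of the mixed chain that starts with `n` and follows the word `w` -/
def node (w : List Bool) (n : ℤ) : ℤ := w.foldl step n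

/-- `m` is divisible by a prime `p ≤ z` and `p < |m|`; in particular `|m|` is not a prime. -/
def SmallFactor (z : ℝ) (m : ℤ) : Prop := ∃ p : ℕ, p.Prime ∧ (p : ℝ) ≤ z ∧ (p : ℤ) ∣ m ∧ (p : ℤ) < |m|

lemma SmallFactor.not_prime {z : ℝ} {m : ℤ} (h : SmallFactor z m) : ¬ (m.natAbs).Prime := by
  rintro hm
  obtain ⟨p, hp, -, hd, hlt⟩ := h
  have e1 : p ∣ m.natAbs := Int.natCast_dvd.mp hd
  rcases (Nat.dvd_prime hm).1 e1 with h | h
  · exact hp.one_lt.ne' h
  · rw [h, Int.natCast_natAbs] at hlt
    exact lt_irrefl _ hlt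

lemma node_eq (w : List Bool) : ∃ c : ℤ, |c| < 2 ^ w.length ∧ ∀ n : ℤ, node w n = 2 ^ w.length * n + c := by
  induction w using List.reverseRecOn with
  | nil => exact ⟨0, by simp, fun n => by simp [node]⟩
  | append_singleton w b ih =>
    obtain ⟨c, hc, h⟩ := ih
    have h1 : ∀ n : ℤ, node (w ++ [b]) n = step (node w n) b := fun n => by simp [node, List.foldl_append]
    rw [abs_lt] at hc
    rw [List.length_append, List.length_singleton, pow_succ]
    cases b with
    | true =>
      refine ⟨2 * c + 1, ?_, fun n => ?_⟩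
      · rw [abs_lt]
        constructor <;> linarith [hc.1, hc.2]
      · rw [h1, h]
        simp only [step, if_true]
        ring
    | false =>
      refine ⟨2 * c - 1, ?_, fun n => ?_⟩
      · rw [abs_lt]
        constructor <;> linarith [hc.1, hc.2]
      · rw [h1, h]
        simp only [step, Bool.false_eq_true, if_false]
        ring

theorem main (C δ : ℝ) (J K : ℕ) (hδ : 0 < δ) : ∀ᶠ X : ℕ in atTop, ∀ S : Finset (List Bool),
    (∀ w ∈ S, 2 ^ w.length ≤ X ^ K) → (S.card : ℝ) ≤ C * Real.log X →
    ∀ y q r : ℕ, y ≤ X ^ K → 1 ≤ q → q ≤ J →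
    ∃ n : ℕ, y ≤ n ∧ (n : ℝ) ≤ y + (X : ℝ) ^ δ ∧ n ≡ r [MOD q] ∧
      ∀ w ∈ S, SmallFactor ((X : ℝ) ^ δ) (node w n) := by
  classical
  obtain ⟨X₀, hX₀⟩ := Pool.Agent.Q20.AS.forms C δ (J + 2) K hδ (by omega)
  choose c hc hn using node_eq
  filter_upwards [eventually_ge_atTop X₀] with X hX S hS hSc y q r hy hq hqJ
  have hA : ∀ l ∈ S.image (fun w : List Bool => (2 ^ w.length, c w)), 1 ≤ l.1 ∧
      (∀ p : ℕ, p.Prime → p ∣ l.1 → p ≤ J + 2) ∧ l.1 ≤ X ^ K ∧ |l.2| ≤ (X : ℤ) ^ K := by
    intro l hl
    rw [Finset.mem_image] at hl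
    obtain ⟨w, hw, rfl⟩ := hl
    refine ⟨Nat.one_le_two_pow, fun p hp hd => ?_, hS w hw, ?_⟩
    · have h1 := (Nat.prime_dvd_prime_iff_eq hp Nat.prime_two).mp (hp.dvd_of_dvd_pow hd)
      omega
    · simp only
      have h1 : ((2 ^ w.length : ℕ) : ℤ) ≤ ((X ^ K : ℕ) : ℤ) := by exact_mod_cast hS w hw
      push_cast at h1
      exact (hc w).le.trans h1
  have hB : ((S.image (fun w : List Bool => (2 ^ w.length, c w))).card : ℝ) ≤ C * Real.log X := by
    refine le_trans ?_ hSc
    exact_mod_cast Finset.card_image_le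
  obtain ⟨n, h1, h2, h3, -, h5⟩ := hX₀ X hX _ hA hB y q r hy hq (by omega) ∅ (by
    rw [Finset.card_empty, Nat.cast_zero]; positivity)
  refine ⟨n, h1, h2, h3, fun w hw => ?_⟩
  obtain ⟨p, a1, a2, a3, a4⟩ := h5 _ (Finset.mem_image_of_mem _ hw)
  have e : (((2 ^ w.length : ℕ)) : ℤ) * (n : ℤ) + c w = node w n := by
    rw [hn w n]
    push_cast
    ring
  simp only at a3 a4
  rw [e] at a3 a4
  exact ⟨p, a1, a2, a3, a4⟩

/-- the words of length at most `h` -/
lemma words (h : ℕ) : ∃ S : Finset (List Bool), (∀ w : List Bool, w ∈ S ↔ w.length ≤ h) ∧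
    S.card ≤ 2 ^ (h + 1) := by
  classical
  induction h with
  | zero =>
    refine ⟨{[]}, fun w => ?_, by simp⟩
    rw [Finset.mem_singleton, Nat.le_zero, List.length_eq_zero_iff]
  | succ h ih =>
    obtain ⟨S, hS, hc⟩ := ih
    refine ⟨insert [] (S.image (fun w => true :: w) ∪ S.image (fun w => false :: w)), fun w => ?_, ?_⟩
    · rw [Finset.mem_insert, Finset.mem_union, Finset.mem_image, Finset.mem_image]
      constructor
      · rintro (rfl | ⟨v, hv, rfl⟩ | ⟨v, hv, rfl⟩)
        · simp
        · have := (hS v).mp hv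
          simp only [List.length_cons]
          omega
        · have := (hS v).mp hv
          simp only [List.length_cons]
          omega
      · intro hw
        rcases w with _ | ⟨b, v⟩
        · exact Or.inl rfl
        · right
          simp only [List.length_cons] at hw
          cases b with
          | true => exact Or.inl ⟨v, (hS v).mpr (by omega), rfl⟩
          | false => exact Or.inr ⟨v, (hS v).mpr (by omega), rfl⟩
    · -- `1 + 2 |S|`, and `|S| ≤ 2 ^ (h + 1) - 1`
      have hexact : ∀ h : ℕ, ∀ S : Finset (List Bool), (∀ w : List Bool, w ∈ S ↔ w.length ≤ h) →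
          S.card + 1 ≤ 2 ^ (h + 1) := by
        intro h
        induction h with
        | zero =>
          intro S hS
          have : S = {[]} := by
            ext w
            rw [hS, Finset.mem_singleton, Nat.le_zero, List.length_eq_zero_iff]
          rw [this]
          simp
        | succ h ih =>
          intro S hS
          obtain ⟨S', hS'⟩ : ∃ S' : Finset (List Bool), S' = S.filter (fun w => w.length ≤ h) := ⟨_, rfl⟩
          have h1 := ih S' (fun w => by
            rw [hS', Finset.mem_filter, hS]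
            constructor
            · exact fun h => h.2
            · exact fun h => ⟨by omega, h⟩)
          have h2 : S ⊆ insert [] (S'.image (fun w => true :: w) ∪ S'.image (fun w => false :: w)) := by
            intro w hw
            have hl := (hS w).mp hw
            rw [Finset.mem_insert, Finset.mem_union, Finset.mem_image, Finset.mem_image]
            rcases w with _ | ⟨b, v⟩
            · exact Or.inl rfl
            · right
              simp only [List.length_cons] at hl
              have hv : v ∈ S' := by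
                rw [hS', Finset.mem_filter, hS]
                exact ⟨by omega, by omega⟩
              cases b with
              | true => exact Or.inl ⟨v, hv, rfl⟩
              | false => exact Or.inr ⟨v, hv, rfl⟩
          have h3 := Finset.card_le_card h2
          have h4 := Finset.card_insert_le ([] : List Bool)
            (S'.image (fun w => true :: w) ∪ S'.image (fun w => false :: w))
          have h5 := Finset.card_union_le (S'.image (fun w => true :: w)) (S'.image (fun w => false :: w))
          have h6 : (S'.image (fun w => true :: w)).card ≤ S'.card := Finset.card_image_le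
          have h7 : (S'.image (fun w => false :: w)).card ≤ S'.card := Finset.card_image_le
          have h8 : 2 ^ (h + 1 + 1) = 2 * 2 ^ (h + 1) := by ring
          omega
      have h1 := hexact h S hS
      have h4 := Finset.card_insert_le ([] : List Bool)
        (S.image (fun w => true :: w) ∪ S.image (fun w => false :: w))
      have h5 := Finset.card_union_le (S.image (fun w => true :: w)) (S.image (fun w => false :: w))
      have h6 : (S.image (fun w => true :: w)).card ≤ S.card := Finset.card_image_le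
      have h7 : (S.image (fun w => false :: w)).card ≤ S.card := Finset.card_image_le
      have h8 : 2 ^ (h + 1 + 1) = 2 * 2 ^ (h + 1) := by ring
      omega

theorem tree (C δ : ℝ) (K : ℕ) (hδ : 0 < δ) : ∀ᶠ X : ℕ in atTop, ∀ h : ℕ,
    (2 : ℝ) ^ (h + 1) ≤ C * Real.log X → ∀ y : ℕ, y ≤ X ^ K →
    ∃ n : ℕ, y ≤ n ∧ (n : ℝ) ≤ y + (X : ℝ) ^ δ ∧
      ∀ w : List Bool, w.length ≤ h → ¬ (node w n).natAbs.Prime := by
  have hlog : ∀ᶠ X : ℕ in atTop, C * Real.log X ≤ X := by
    have h1 : ∀ᶠ x : ℝ in atTop, ‖C * Real.log x‖ ≤ ‖id x‖ := by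
      have h0 := (Real.isLittleO_log_id_atTop.const_mul_left C).bound one_pos
      filter_upwards [h0] with x hx
      simpa using hx
    have h2 := tendsto_natCast_atTop_atTop.eventually h1
    filter_upwards [h2] with X hX
    simp only [id, Real.norm_eq_abs] at hX
    calc C * Real.log X ≤ |C * Real.log X| := le_abs_self _
      _ ≤ |(X : ℝ)| := hX
      _ = X := abs_of_nonneg (Nat.cast_nonneg X)
  filter_upwards [main C δ 1 (K + 1) hδ, hlog, eventually_ge_atTop 1] with X hX hl hX1 h hh y hy
  obtain ⟨S, hS, hc⟩ := words h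
  obtain ⟨n, h1, h2, -, h4⟩ := hX S (fun w hw => by
      have h5 := (hS w).mp hw
      have h6 : (2 : ℝ) ^ (h + 1) ≤ X := hh.trans hl
      have h7 : 2 ^ (h + 1) ≤ X := by exact_mod_cast h6
      calc 2 ^ w.length ≤ 2 ^ (h + 1) := Nat.pow_le_pow_right (by omega) (by omega)
        _ ≤ X := h7
        _ ≤ X ^ (K + 1) := Nat.le_self_pow (by omega) X) (by
      refine le_trans ?_ hh
      exact_mod_cast hc) y 1 0 (hy.trans (Nat.pow_le_pow_right (by omega) (by omega))) le_rfl le_rfl
  exact ⟨n, h1, h2, fun w hw => (h4 w ((hS w).mpr hw)).not_prime⟩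

theorem result :
    (∀ (C δ : ℝ) (J K : ℕ), 0 < δ → ∀ᶠ X : ℕ in atTop, ∀ S : Finset (List Bool),
      (∀ w ∈ S, 2 ^ w.length ≤ X ^ K) → (S.card : ℝ) ≤ C * Real.log X →
      ∀ y q r : ℕ, y ≤ X ^ K → 1 ≤ q → q ≤ J →
      ∃ n : ℕ, y ≤ n ∧ (n : ℝ) ≤ y + (X : ℝ) ^ δ ∧ n ≡ r [MOD q] ∧
        ∀ w ∈ S, SmallFactor ((X : ℝ) ^ δ) (node w n)) ∧
    ∀ (C δ : ℝ) (K : ℕ), 0 < δ → ∀ᶠ X : ℕ in atTop, ∀ h : ℕ,
      (2 : ℝ) ^ (h + 1) ≤ C * Real.log X → ∀ y : ℕ, y ≤ X ^ K →
      ∃ n : ℕ, y ≤ n ∧ (n : ℝ) ≤ y + (X : ℝ) ^ δ ∧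
        ∀ w : List Bool, w.length ≤ h → ¬ (node w n).natAbs.Prime :=
  ⟨main, tree⟩

end Pool.Agent.Results.MP_c183ae_nt.MixedChainsWithoutPrimes
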