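import Pool.Agent.Q46.SL.Tools
import Pool.Agent.Q46.SL.Mord

/-!
# The forms `x r_j + 1` are almost prime at discrete logarithms and at the values of polynomials

We look for `x` such that all of `x r_j + 1`, `j < l`, have at most `R` prime factors, all larger than `p ^ κ`; the numbers `r_j` (`ρ j`
below) may be as large as `p ^ B`, and `κ`, `R` do not depend on them.

Let `p` be a large prime, `g` a nonzero residue and `f_1, ..., f_s` polynomials modulo `p`, linearly independent together with `1`. In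
all boxes above a certain size there are many exponents `x` such that ALL of `x` and the least residues of `f_1(g ^ x)`, ...,
`f_s(g ^ x)` have the property. Here the property is: all `x r_j + 1` have at most `R` prime factors, all larger than `p ^ κ`. The lower bound is of the expected order of magnitude (`m = 0`).

In addition the numbers avoid arbitrary residue classes, at most `m` classes `E q` modulo each prime `q ≤ z`, as long as there is no
local obstruction; `m = 0` is the case without classes. The exponent `κ`, the number `R` and the constant `cc` do not depend on the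
classes.

Design and proof: helper46 (modules `Pool.Agent.Q46.SV.*`, `Pool.Agent.Q46.SL.*`): the vectors of the residues in question are
equidistributed modulo all small integers with a power saving, by bounds for exponential sums; the fundamental lemma of the
sieve is applied to the vectors.
-/

set_option autoImplicit false

namespace Pool.Agent.Results.MP_d018b2_nt.LogarithmsAndPolynomials

open Finset Polynomial
open Pool.Agent.Q46.SL hiding Almost

/-- `n` is not zero and has at most `R` prime factors (counted with multiplicity), all larger than `z` -/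
def Almost (z : ℝ) (R : ℕ) (n : ℤ) : Prop :=
  n ≠ 0 ∧ n.natAbs.primeFactorsList.length ≤ R ∧ ∀ q : ℕ, q.Prime → (q : ℤ) ∣ n → z < q

/-- `x` is positive, all `ρ_j x + 1` have at most `R` prime factors, all larger than `z`, and `x` avoids the classes `E q`, `q ≤ z` -/
def Good {l : ℕ} (ρ : Fin l → ℤ) (z : ℝ) (R : ℕ) (E : ℕ → Finset ℕ) (x : ℤ) : Prop :=
  0 < x ∧ (∀ j, Almost z R (ρ j * x + 1)) ∧ ∀ q : ℕ, q.Prime → (q : ℝ) ≤ z → (x % q).toNat ∉ E q

/-- `E q` has at most `m` elements, and some residue `a` outside `E q` has `q ∤ ρ_j a + 1` for all `j` -/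
def Adm {l : ℕ} (ρ : Fin l → ℤ) (m : ℕ) (E : ℕ → Finset ℕ) : Prop :=
  ∀ q : ℕ, q.Prime → (E q).card ≤ m ∧ ∃ a < q, a ∉ E q ∧ ∀ j, ¬ (q : ℤ) ∣ ρ j * a + 1

/-- the polynomials and the classes -/
noncomputable def sysE {l : ℕ} (ρ : Fin l → ℤ) (m : ℕ) (E : ℕ → Finset ℕ) (hE : Adm ρ m E) : PE l m l where
  f := fun j => C (ρ j) * X + C 1
  E := E
  deg := by
    have h1 : ∀ j : Fin l, (C (ρ j) * X + C 1 : ℤ[X]).natDegree ≤ 1 := fun j => by compute_degree
    refine (sum_le_sum fun j _ => h1 j).trans ?_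
    simp
  adm := by
    intro q hq
    obtain ⟨h1, a, ha, haE, h2⟩ := hE q hq
    refine ⟨h1, a, ha, haE, fun j => ?_⟩
    simpa using h2 j

lemma good_of {l : ℕ} {ρ : Fin l → ℤ} {m B : ℕ} {E : ℕ → Finset ℕ} (hE : Adm ρ m E) {κ M : ℝ} (hM : (2 : ℝ) ≤ M)
    (hh : ∀ j, |(ρ j : ℝ)| ≤ M ^ B) {x : ℤ} (hN : Near (B + 1) (sysE ρ m E hE) κ M x) (hx : (x : ℝ) ≤ M) :
    Good ρ (M ^ κ) ⌊(((B + 1) : ℕ) + (l : ℕ) + 1 : ℝ) / κ⌋₊ E x := by
  obtain ⟨h0, h12⟩ := hN
  obtain ⟨h1, h2⟩ := h12 (by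
    intro j
    have hB : (1 : ℝ) ≤ M ^ B := one_le_pow₀ (by linarith)
    refine cb_mono (cb_add (cb_CX (ρ j)) (cb_C 1)) ?_
    rw [pow_succ]
    have h3 := hh j
    push_cast
    norm_num
    nlinarith) hx
  refine ⟨h0, fun j => ?_, h2⟩
  simpa [sysE, Almost, Pool.Agent.Q46.SL.Almost] using h1 j

/-- The forms `ρ_j x + 1` are almost primes for an exponent `x` and for the values of `s` polynomials at the power. -/
theorem result (l B m : ℕ) (r s : ℕ) (hr : 1 ≤ r) (ε : ℝ) (hε : 0 < ε) (hε1 : ε ≤ 1) :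
    ∃ κ : ℝ, 0 < κ ∧ ∃ cc : ℝ, 0 < cc ∧ ∃ R p₀ : ℕ, ∀ p : ℕ, p₀ ≤ p → ∀ [Fact p.Prime], ∀ ρ : Fin l → ℤ, (∀ j, |(ρ j : ℝ)| ≤ (p : ℝ) ^ B) → ∀ E : ℕ → Finset ℕ, Adm ρ m E → ∀ (g : (ZMod p)ˣ) (f : Fin s → (ZMod p)[X]),
      (∀ i, (f i).natDegree ≤ r) → (∀ c : Fin s → ZMod p, (∑ i, C (c i) * f i).natDegree = 0 → c = 0) →
      ∀ (A₀ N₀ : ℕ) (A N : Fin s → ℕ), A₀ + N₀ ≤ orderOf g → (∀ i, A i + N i ≤ p) →
      (p : ℝ) ^ ε ≤ N₀ → (∀ i, (p : ℝ) ^ ε ≤ N i) →
      (p : ℝ) ^ ((2 * s + 1) * r + ε) * ((orderOf g : ℕ) : ℝ) ^ (r - 1) ≤ ((N₀ : ℝ) * ∏ i, (N i : ℝ)) ^ (2 * r) →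
      ∃ G : Finset ℕ, cc * ((N₀ : ℝ) * (∏ i, (N i : ℝ)) / (p : ℝ) ^ s) / Real.log p ^ ((s + 1) * (m + l)) ≤ G.card ∧
        ∀ x ∈ G, (A₀ ≤ x ∧ x < A₀ + N₀) ∧
          (∀ i, A i ≤ ((f i).eval ((g : ZMod p) ^ x)).val ∧ ((f i).eval ((g : ZMod p) ^ x)).val < A i + N i) ∧
          Good ρ ((p : ℝ) ^ κ) R E x ∧ ∀ i, Good ρ ((p : ℝ) ^ κ) R E ((f i).eval ((g : ZMod p) ^ x)).val := by
  obtain ⟨κ, hκ, cc, hcc, p₀, h⟩ := Pool.Agent.Q46.SL.logs (Near (B + 1) : PE l m l → ℝ → ℝ → ℤ → Prop)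
    (lg (m + l)) (fun r _ => csN l m l (B + 1) r) r s hr ε hε hε1
  refine ⟨κ, hκ, cc, hcc, ⌊(((B + 1) : ℕ) + (l : ℕ) + 1 : ℝ) / κ⌋₊, max 2 p₀, ?_⟩
  intro p hp _ ρ ht E hE g f hf hind A₀ N₀ A N hA0 hA hN0 hN hP
  have hpr : (2 : ℝ) ≤ p := by exact_mod_cast (le_max_left _ _).trans hp
  have hord := ord_le' g
  obtain ⟨G, hG, hG2⟩ := h p ((le_max_right _ _).trans hp) (sysE ρ m E hE) g f hf hind A₀ N₀ A N hA0 hA hN0 hN hP
  refine ⟨G, le_trans (cnt le_rfl (div_nonneg (mul_nonneg (Nat.cast_nonneg _)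
    (prod_nonneg fun _ _ => Nat.cast_nonneg _)) (by positivity)) (log0 p) _ _) hG, ?_⟩
  intro x hx
  obtain ⟨a1, a2, a3, a4⟩ := hG2 x hx
  exact ⟨a1, a2, good_of hE hpr ht a3 (by exact_mod_cast (by omega : x ≤ p)), fun i =>
    good_of hE hpr ht (a4 i) (by exact_mod_cast (ZMod.val_lt _).le)⟩

end Pool.Agent.Results.MP_d018b2_nt.LogarithmsAndPolynomials
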