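import Pool.Agent.Q46.PV.Inst
import Pool.Agent.Q46.GQ.Fermat
import Pool.Agent.Q46.GQ.Zech

/-!
# Long strings of composite values of a polynomial around Fermat quotients and around discrete logarithms

Let `f` be an irreducible polynomial with integer coefficients and positive leading coefficient, for instance
`f = X^2 + 3 X + 1`.  For many integers `n < p²` the values `f(m)` at all the integers `m` at distance at most
`κ log p log log p` of `n` or of the Fermat quotient of `n` modulo `p` are composite; and for many solutions of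
`a g^i + b g^j = c mod p`, `g` a primitive root, the same holds for both exponents `i` and `j`.

Design and proof: helper46 (modules `Pool.Agent.Q46.PV.*`: the covering criterion for vectors of integers and values of
polynomials, on the covering theorem `Pool.Agent.H474R2.PG` of the starting repository; `Pool.Agent.Q46.GQ.*`).
-/

set_option autoImplicit false

open Polynomial

namespace Pool.Agent.Results.MP_d57abb_nt.FermatQuotientsAndLogarithms

/-- every value of `f` at an integer at distance at most `K` of `x` has a prime factor smaller than the value (in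
particular none of these values is a prime) -/
def Composite (f : ℤ[X]) (K : ℝ) (x : ℤ) : Prop :=
  ∀ k : ℤ, |(k : ℝ)| ≤ K → ∃ q : ℕ, q.Prime ∧ (q : ℤ) ∣ f.eval (x + k) ∧ (q : ℤ) < f.eval (x + k)

/-- the length `log x log log x` -/
noncomputable def len (x : ℝ) : ℝ := Real.log x * Real.log (Real.log x)

/-- the Fermat quotient: the least residue of `(n^(p-1) - 1) / p` modulo `p` -/
def fermatQuotient (p n : ℕ) : ℕ := (n ^ (p - 1) - 1) / p % p

/-- Let `f` be irreducible of positive degree with positive leading coefficient and `0 < ε ≤ 1`.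

1. For all large primes `p` and all intervals `[A, A + M)` in `[0, p²)` and `[B, B + N)` in `[0, p)` with
`M N ≥ p^(2 + ε)`, at least `M N p^(-1 - ε)` of the integers `n` in `[A, A + M)` are prime to `p`, have their Fermat quotient
in `[B, B + N)`, and `f(m)` is composite for all integers `m` at distance at most `κ len(p²)` of `n` or of the Fermat
quotient.

2. For all large primes `p`, all primitive roots `g` modulo `p`, all `a`, `b`, `c` prime to `p` and all intervals
`[A, A + M)`, `[B, B + N)` in `[0, p - 1)` with `M N ≥ p^(3/2 + ε)`, at least `M N p^(-1 - ε)` of the solutions `(i, j)` of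
`a g^i + b g^j = c mod p` in the box are such that `f(m)` is composite for all integers `m` at distance at most `κ len p`
of `i` or of `j`. -/
theorem result : ∀ f : ℤ[X], Irreducible f → 0 < f.natDegree → 0 < f.leadingCoeff → ∀ ε : ℝ, 0 < ε → ε ≤ 1 →
    (∃ κ : ℝ, 0 < κ ∧ ∃ p₀ : ℕ, ∀ p : ℕ, p₀ ≤ p → p.Prime →
      ∀ A M B N : ℕ, A + M ≤ p ^ 2 → B + N ≤ p → (p : ℝ) ^ (2 + ε) ≤ (M : ℝ) * N →
      ∃ G : Finset ℕ, (M : ℝ) * N / p * (p : ℝ) ^ (-ε) ≤ G.card ∧
        ∀ n ∈ G, (A ≤ n ∧ n < A + M) ∧ ¬ p ∣ n ∧ (B ≤ fermatQuotient p n ∧ fermatQuotient p n < B + N) ∧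
          Composite f (κ * len ((p : ℝ) ^ 2)) n ∧ Composite f (κ * len ((p : ℝ) ^ 2)) (fermatQuotient p n)) ∧
    (∃ κ : ℝ, 0 < κ ∧ ∃ p₀ : ℕ, ∀ p : ℕ, p₀ ≤ p → p.Prime →
      ∀ g a b c : ℤ, orderOf (g : ZMod p) = p - 1 → ¬ (p : ℤ) ∣ a → ¬ (p : ℤ) ∣ b → ¬ (p : ℤ) ∣ c →
      ∀ A M B N : ℕ, A + M ≤ p - 1 → B + N ≤ p - 1 → (p : ℝ) ^ (3 / 2 + ε) ≤ (M : ℝ) * N →
      ∃ G : Finset (ℕ × ℕ), (M : ℝ) * N / p * (p : ℝ) ^ (-ε) ≤ G.card ∧
        ∀ z ∈ G, (A ≤ z.1 ∧ z.1 < A + M) ∧ (B ≤ z.2 ∧ z.2 < B + N) ∧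
          (p : ℤ) ∣ a * g ^ z.1 + b * g ^ z.2 - c ∧
          Composite f (κ * len p) z.1 ∧ Composite f (κ * len p) z.2) := by
  intro f hf hd hl ε h0 h1
  refine ⟨?_, ?_⟩
  · exact Pool.Agent.Q46.GQ.fermat_quotients (Pool.Agent.Q46.PV.QP f) (Pool.Agent.Q46.PV.CH_QP f hf hd hl) ε h0 h1
  · exact Pool.Agent.Q46.GQ.zech (Pool.Agent.Q46.PV.QP f) (Pool.Agent.Q46.PV.CH_QP f hf hd hl) ε h0 h1

end Pool.Agent.Results.MP_d57abb_nt.FermatQuotientsAndLogarithms
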