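import Pool.Agent.Q26.PD.AR2

/-!
# Prime `k`-tuples at the elements of arbitrary sets of arguments, for shifts composed of few elements of arbitrary
sets, and for almost all shifts in automatic sets
-/

set_option autoImplicit false

namespace Pool.Agent.Results.MP_e87c7d_nt.ArbitraryArgumentsAnySets

open Finset

open Classical in
/-- The number of the `n ∈ M` with `1 ≤ n ≤ N` such that all `n + a i` are (positive) primes. -/
noncomputable def primeCount {k : ℕ} (a : Fin k → ℤ) (M : Set ℕ) (N : ℕ) : ℕ :=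
  ((Icc 1 N).filter (fun n : ℕ => n ∈ M ∧ ∀ i, 1 ≤ (n : ℤ) + a i ∧ ((n : ℤ) + a i).toNat.Prime)).card

open Classical in
/-- The number of the `n ∈ M` with `1 ≤ n ≤ N` such that all `n + a i` are positive and not divisible by a prime
`p ≤ z`. -/
noncomputable def roughCount {k : ℕ} (a : Fin k → ℤ) (z : ℕ) (M : Set ℕ) (N : ℕ) : ℕ :=
  ((Icc 1 N).filter (fun n : ℕ => n ∈ M ∧ ∀ i, 1 ≤ (n : ℤ) + a i ∧
    ∀ p : ℕ, p.Prime → p ≤ z → ¬ (p : ℤ) ∣ (n : ℤ) + a i)).card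

/-- `∏_{p ≤ z} (1 - 1 / p)`, the density of the integers without prime factors `≤ z`. -/
noncomputable def V (z : ℕ) : ℝ := ∏ p ∈ (Icc 1 z).filter Nat.Prime, (1 - 1 / (p : ℝ))

/-- For every one of the sets `𝒩 j` which contains at least `N / log ^ K N` elements `n ≤ N` such that the numbers
`n + a i` are positive and have no prime factor `≤ z`, the proportion of these elements for which all `n + a i` are
prime is `1 / (V z log N) ^ k`, up to a relative error of at most `ε`. -/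
def Holds (ε : ℝ) (K N z : ℕ) {k m : ℕ} (𝒩 : Fin m → Set ℕ) (a : Fin k → ℤ) : Prop :=
  ∀ j : Fin m, (N : ℝ) / Real.log N ^ K ≤ roughCount a z (𝒩 j) N →
    |(primeCount a (𝒩 j) N : ℝ) - roughCount a z (𝒩 j) N / (V z * Real.log N) ^ k| ≤
      ε * (roughCount a z (𝒩 j) N / (V z * Real.log N) ^ k)

open Classical in
/-- The elements `v < N` of the automatic set given by the base `b` and the automaton `M`: the integers whose base
`b` digits are accepted by `M`. -/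
noncomputable def aut {σ : Type} (b : ℕ) (M : DFA ℕ σ) (N : ℕ) : Finset ℕ :=
  (range N).filter fun v => Nat.digits b v ∈ M.accepts

open Pool.Agent.Q26.PD
open Pool.Agent.H373R2.T7 (pz mem_pz Vz)

open Classical in
lemma holds_of (ε : ℝ) (K N z : ℕ) {k m : ℕ} (𝒩 : Fin m → Set ℕ) (a : Fin k → ℤ)
    (h : ∀ j, OkA ε K N z ((Icc 1 N).filter (· ∈ 𝒩 j)) a) : Holds ε K N z 𝒩 a := by
  intro j hR
  have e1 : primeCount a (𝒩 j) N = cntA a ((Icc 1 N).filter (· ∈ 𝒩 j)) := by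
    unfold primeCount cntA
    rw [filter_filter]
  have e2 : roughCount a z (𝒩 j) N = rghA a z ((Icc 1 N).filter (· ∈ 𝒩 j)) := by
    unfold roughCount rghA
    rw [filter_filter]
    congr 1
    apply filter_congr
    intro n _
    constructor
    · rintro ⟨h1, h2⟩
      exact ⟨h1, fun i => ⟨(h2 i).1, fun p hp => (h2 i).2 p (mem_pz.1 hp).2 (mem_pz.1 hp).1⟩⟩
    · rintro ⟨h1, h2⟩
      exact ⟨h1, fun i => ⟨(h2 i).1, fun p hp1 hp2 => (h2 i).2 p (mem_pz.2 ⟨hp2, hp1⟩)⟩⟩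
  have e3 : V z = Vz z := rfl
  rw [e1, e2, e3]
  rw [e2] at hR
  exact h j hR

open Classical in
/-- Let `k ≥ 1`, `T` and `K` be fixed. Throughout, `N` is large, `z = ⌊log ^ E N⌋`, and `𝒩 1, ..., 𝒩 m` are ARBITRARY
sets of positive integers (the sets of arguments), `m ≤ log ^ T N`.

(1) Let `l ≥ 2` and `P ≥ 1`. There is a constant `C` such that the following holds for all `H`, `B`, `ε > 0` and all
`E ≥ E₀(H, B, ε)`, `N ≥ N₀(E, H, B, ε)`. Let `A 1, ..., A k` be ARBITRARY sets of positive integers which meet all the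
intervals `[x, l x]`, `x ≥ 1`, and let `a 1, ..., a k` be arbitrary integers with `|a i| ≤ B N`. One can add to every
`a i` a sum of at most `C (log log N) ^ 2` distinct elements of `A i` between `log ^ H N` and `N / log ^ H N`, with a sum
divisible by `P`, such that the resulting shifts `a' i` have the following property, simultaneously for all the sets
`𝒩 j`: if `R` is the number of the `n ≤ N` in `𝒩 j` for which `n + a' 1, ..., n + a' k` have no prime factor `≤ z`, and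
`R ≥ N / log ^ K N`, then the number of the `n ≤ N` in `𝒩 j` for which `n + a' 1, ..., n + a' k` are all prime is
`(1 + O(ε)) R / (V z log N) ^ k`, where `V z = ∏_{p ≤ z} (1 - 1 / p)`.

(2) Let `A 1, ..., A k` be automatic sets, in arbitrary bases `b i ≥ 2`, which are not sparse: the number of the
elements of `A i` below `N` is not bounded by a power of `log N`. Let the integers `κ i ≠ 0`, `B`, `U` and `ε > 0` be
fixed, and let `E` be large and `N` be large in terms of `E`. For arbitrary sets `𝒩 j` and arbitrary integers `c i` with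
`|c i| ≤ B N`, the shifts `c i + κ i v i` have the same property for all the vectors `(v 1, ..., v k)` of elements
`v i < N` of `A i`, with the exception of a proportion of at most `1 / log ^ U N` of these vectors. -/
theorem result (k : ℕ) (hk : 1 ≤ k) (T K : ℕ) :
    (∀ l P : ℕ, 2 ≤ l → 1 ≤ P → ∃ C : ℝ, ∀ (H B : ℕ) (ε : ℝ), 0 < ε → ∃ E₀ : ℕ, ∀ E : ℕ, E₀ ≤ E → ∃ N₀ : ℕ,
      ∀ A : Fin k → Set ℕ, (∀ i, ∀ x : ℕ, 1 ≤ x → ∃ a ∈ A i, x ≤ a ∧ a ≤ l * x) →
      ∀ N : ℕ, N₀ ≤ N → ∀ m : ℕ, (m : ℝ) ≤ Real.log N ^ T → ∀ 𝒩 : Fin m → Set ℕ,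
      ∀ a : Fin k → ℤ, (∀ i, |a i| ≤ (B : ℤ) * N) →
      ∃ S : Fin k → Finset ℕ, (∀ i, ∀ x ∈ S i, x ∈ A i ∧ Real.log N ^ H ≤ x ∧ (x : ℝ) ≤ N / Real.log N ^ H) ∧
        (∀ i, ((S i).card : ℝ) ≤ C * Real.log (Real.log N) ^ 2) ∧ (∀ i, P ∣ ∑ x ∈ S i, x) ∧
        Holds ε K N ⌊Real.log N ^ E⌋₊ 𝒩 (fun i => a i + ∑ x ∈ S i, (x : ℤ))) ∧
    (∀ (b : Fin k → ℕ), (∀ i, 2 ≤ b i) → ∀ (σ : Fin k → Type), (∀ i, Finite (σ i)) → ∀ M : ∀ i, DFA ℕ (σ i),
      (∀ i, ∀ q : ℕ, ∃ᶠ N : ℕ in Filter.atTop, Real.log N ^ q < ((aut (b i) (M i) N).card : ℝ)) →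
      ∀ (κ : Fin k → ℤ), (∀ i, κ i ≠ 0) → ∀ (B U : ℕ) (ε : ℝ), 0 < ε → ∃ E₀ : ℕ, ∀ E : ℕ, E₀ ≤ E → ∃ N₀ : ℕ,
      ∀ N : ℕ, N₀ ≤ N → ∀ m : ℕ, (m : ℝ) ≤ Real.log N ^ T → ∀ 𝒩 : Fin m → Set ℕ,
      ∀ c : Fin k → ℤ, (∀ i, |c i| ≤ (B : ℤ) * N) →
        (((Fintype.piFinset fun i => aut (b i) (M i) N).filter fun v =>
          ¬ Holds ε K N ⌊Real.log N ^ E⌋₊ 𝒩 (fun i => c i + κ i * (v i : ℤ))).card : ℝ) ≤
        ((Fintype.piFinset fun i => aut (b i) (M i) N).card : ℝ) / Real.log N ^ U) := by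
  constructor
  · intro l P hl hP
    obtain ⟨C, hC⟩ := ar_las k l P hk hl hP T K
    refine ⟨C, fun H B ε hε => ?_⟩
    obtain ⟨E₀, h0⟩ := hC H B ε hε
    refine ⟨E₀, fun E hE => ?_⟩
    obtain ⟨N₀, h1⟩ := h0 E hE
    refine ⟨N₀, fun A hA N hN m hm 𝒩 a ha => ?_⟩
    obtain ⟨S, s1, s2, s3, s4⟩ := h1 A hA N hN m hm (fun j => (Icc 1 N).filter (· ∈ 𝒩 j)) (fun j => filter_subset _ _) a ha
    exact ⟨S, s1, s2, s3, holds_of _ _ _ _ _ _ s4⟩
  · intro b hb σ hσ M hM κ hκ B U ε hε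
    have haut := fun i => autZ (b i) (hb i) (M i) (fun q => hM i q) (κ i) (hκ i)
    choose Bv hBv using haut
    obtain ⟨E₀, h0⟩ := ar_fam k hk κ Bv _ hBv B T K U ε hε
    refine ⟨E₀, fun E hE => ?_⟩
    obtain ⟨N₀, h1⟩ := h0 E hE
    refine ⟨N₀, fun N hN m hm 𝒩 c hc => ?_⟩
    refine le_trans ?_ (h1 N hN m hm (fun j => (Icc 1 N).filter (· ∈ 𝒩 j)) (fun j => filter_subset _ _)
      (fun i => aut (b i) (M i) N) (fun i => rfl) c hc)
    apply Nat.cast_le.2
    apply card_le_card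
    intro v hv
    rw [mem_filter] at hv ⊢
    refine ⟨hv.1, ?_⟩
    by_contra hcon
    push Not at hcon
    exact hv.2 (holds_of _ _ _ _ _ _ hcon)

end Pool.Agent.Results.MP_e87c7d_nt.ArbitraryArgumentsAnySets
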