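import Pool.Agent.Q46.PV.Inst
import Pool.Agent.Q46.GQ.Mord
import Pool.Agent.Q46.GQ.Sub

/-!
# Long strings of composite values of a polynomial around discrete logarithms

Let `f` be an irreducible polynomial with integer coefficients and positive leading coefficient, for instance
`f = X^2 + 1`.  For many exponents `n` all the values `f(m)` at the integers `m` at distance at most
`κ log p log log p` of `n` or of any of the least residues of `F_1(g^n), ..., F_s(g^n)` modulo `p` are composite; here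
`F_1, ..., F_s` are arbitrary polynomials no nontrivial linear combination of which is constant.  The same is proved for
the elements of small multiplicative subgroups, of order down to `p^(3/8 + ε)`, and their exponents.

Design and proof: helper46 (modules `Pool.Agent.Q46.PV.*`: the covering criterion for vectors of integers and values of
polynomials, on the covering theorem `Pool.Agent.H474R2.PG` of the starting repository; `Pool.Agent.Q46.GQ.*`: Mordell's
method with a multiplicative twist, the energy bound of the starting repository for subgroups).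
-/

set_option autoImplicit false

open Polynomial

namespace Pool.Agent.Results.MP_f1a94e_nt.LogarithmsAndPolynomials

/-- every value of `f` at an integer at distance at most `K` of `x` has a prime factor smaller than the value (in
particular none of these values is a prime) -/
def Composite (f : ℤ[X]) (K : ℝ) (x : ℤ) : Prop :=
  ∀ k : ℤ, |(k : ℝ)| ≤ K → ∃ q : ℕ, q.Prime ∧ (q : ℤ) ∣ f.eval (x + k) ∧ (q : ℤ) < f.eval (x + k)

/-- the length `log x log log x` -/
noncomputable def len (x : ℝ) : ℝ := Real.log x * Real.log (Real.log x)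

/-- **Composite values around discrete logarithms.**  Part 1: an exponent `n` and the values of `s` polynomials at the power `g^n`.  Part 2: an exponent and the power, small
subgroups. -/
theorem result : ∀ f : ℤ[X], Irreducible f → 0 < f.natDegree → 0 < f.leadingCoeff → ∀ ε : ℝ, 0 < ε → ε ≤ 1 →
    (∀ (r s : ℕ), 1 ≤ r → ∃ κ : ℝ, 0 < κ ∧ ∃ p₀ : ℕ,
      ∀ p : ℕ, p₀ ≤ p → ∀ [Fact p.Prime], ∀ (g : (ZMod p)ˣ) (F : Fin s → (ZMod p)[X]),
      (∀ i, (F i).natDegree ≤ r) → (∀ c : Fin s → ZMod p, (∑ i, C (c i) * F i).natDegree = 0 → c = 0) →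
      ∀ (A₀ N₀ : ℕ) (A N : Fin s → ℕ), A₀ + N₀ ≤ orderOf g → (∀ i, A i + N i ≤ p) →
        (p : ℝ) ^ ε ≤ N₀ → (∀ i, (p : ℝ) ^ ε ≤ N i) →
        (p : ℝ) ^ ((2 * s + 1) * r + ε) * ((orderOf g : ℕ) : ℝ) ^ (r - 1) ≤ ((N₀ : ℝ) * ∏ i, (N i : ℝ)) ^ (2 * r) →
        ∃ G : Finset ℕ, (N₀ : ℝ) * (∏ i, (N i : ℝ)) * (p : ℝ) ^ (-(s + ε)) ≤ G.card ∧ ∀ n ∈ G,
          (A₀ ≤ n ∧ n < A₀ + N₀) ∧
          (∀ i, A i ≤ ((F i).eval ((g : ZMod p) ^ n)).val ∧ ((F i).eval ((g : ZMod p) ^ n)).val < A i + N i) ∧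
          Composite f (κ * len p) n ∧
          ∀ i, Composite f (κ * len p) ((F i).eval ((g : ZMod p) ^ n)).val) ∧
    (∃ κ : ℝ, 0 < κ ∧ ∃ p₀ : ℕ, ∀ p : ℕ, p₀ ≤ p → p.Prime →
      ∀ g c : ℤ, ¬ (p : ℤ) ∣ g → ¬ (p : ℤ) ∣ c → ∀ A M B N : ℕ, A + M ≤ orderOf (g : ZMod p) → B + N ≤ p →
      (p : ℝ) ^ (9 / 8 + ε) * (orderOf (g : ZMod p) : ℝ) ^ (2 / 3 : ℝ) ≤ (M : ℝ) * N →
      ∃ G : Finset (ℕ × ℕ), (M : ℝ) * N / p * (p : ℝ) ^ (-ε) ≤ G.card ∧
        ∀ z ∈ G, (A ≤ z.1 ∧ z.1 < A + M) ∧ (B ≤ z.2 ∧ z.2 < B + N) ∧ (p : ℤ) ∣ z.2 - c * g ^ z.1 ∧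
          Composite f (κ * len p) z.1 ∧ Composite f (κ * len p) z.2) := by
  intro f hf hd hl ε h0 h1
  refine ⟨?_, ?_⟩
  · intro r s hr
    exact Pool.Agent.Q46.GQ.logs (Pool.Agent.Q46.PV.QP f) (Pool.Agent.Q46.PV.CH_QP f hf hd hl) r s hr ε h0 h1
  · exact Pool.Agent.Q46.GQ.small_subgroups (Pool.Agent.Q46.PV.QP f) (Pool.Agent.Q46.PV.CH_QP f hf hd hl) ε h0 h1

end Pool.Agent.Results.MP_f1a94e_nt.LogarithmsAndPolynomials
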