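import Pool.Agent.Q20.SL.Final

/-!
# Record prime gaps around the entries of the elements of `SL_2(ℤ)`

Let `ℓ_1, …, ℓ_k` be pairwise non-proportional nonzero linear forms with integral coefficients in the four
entries of a `2 × 2` matrix (for example the four entries, the trace, the sums of the rows, …).  There is
`κ > 0` such that for all large `Z` and for ALL `g, h ∈ SL_2(ℤ)` there is `M ∈ SL_2(ℤ)` with entries in
`[√Z, Z]` such that no prime larger than `Z^(1/10)` lies at distance at most
`κ log Z (log₂ Z)² log₄ Z / (log₃ Z)²` of any of the numbers `ℓ_1(gMh), …, ℓ_k(gMh)`.  The number `κ`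
depends on the forms only, not on `g` and `h`.  If `ℓ_j(gMh) ≥ √Z` there is no prime at all in that
neighbourhood; so (`g = h = 1`) there are matrices `M = (a, b; c, d)` with `ad - bc = 1`, entries between
`√Z` and `Z`, such that `a`, `b`, `c`, `d` and `a + d` all are in the middle of record prime gaps, and
with `g`, `h` arbitrary the same (up to primes `≤ Z^(1/10)`) holds in every `ball` `g B h` of the group.

Proof (`Pool.Agent.Q20.SL`): the products `U(x₃) L(x₂) U(x₀) L(x₁) U(x₄)` of elementary matrices are
almost uniformly distributed on `SL_2(𝔽_p)`; the numbers of the points of `SL_2(𝔽_p)` on one or two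
hyperplanes are computed (`Count.lean`); the residues at the medium primes are chosen with `gMh ≡ 1`;
and the assembly `Pool.Agent.Y837.SV.gen3` of the starting library (covering theorem for colourings of
the residue vectors) is used in a version uniform in the functions (`Uni.lean`, adapted from that file).
-/

set_option autoImplicit false

namespace Pool.Agent.Results.MP_ff81b6_nt.LinearFormsOnSL2

/-- the record scale `log x (log₂ x)² log₄ x / (log₃ x)²` -/
noncomputable def scale (x : ℝ) : ℝ :=
  Real.log x * (Real.log (Real.log x)) ^ 2 * Real.log (Real.log (Real.log (Real.log x))) /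
    (Real.log (Real.log (Real.log x))) ^ 2

/-- **Record prime gaps around linear forms on `SL_2(ℤ)`.** The linear form of the coefficient matrix `A`
has the value `(A * X).trace` at `X`. -/
theorem result : ∀ (k : ℕ) (A : Fin k → Matrix (Fin 2) (Fin 2) ℤ), (∀ j, A j ≠ 0) →
    (∀ i j, i ≠ j → ∀ m n : ℤ, m • A i = n • A j → m = 0 ∧ n = 0) →
    ∃ κ : ℝ, 0 < κ ∧ ∃ Z₀ : ℝ, ∀ Z : ℝ, Z₀ ≤ Z → ∀ g h : Matrix (Fin 2) (Fin 2) ℤ,
      g.det = 1 → h.det = 1 → ∃ M : Matrix (Fin 2) (Fin 2) ℤ, M.det = 1 ∧
        (∀ i l, Real.sqrt Z ≤ (M i l : ℝ) ∧ (M i l : ℝ) ≤ Z) ∧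
        ∀ j, (∀ q : ℕ, q.Prime → |(q : ℝ) - (A j * (g * M * h)).trace| ≤ κ * scale Z →
            (q : ℝ) ≤ Z ^ (1 / 10 : ℝ)) ∧
          (Real.sqrt Z ≤ ((A j * (g * M * h)).trace : ℝ) → ∀ q : ℕ, q.Prime →
            κ * scale Z < |(q : ℝ) - (A j * (g * M * h)).trace|) :=
  fun _ A hA hind => Pool.Agent.Q20.SL.slmain A hA hind

end Pool.Agent.Results.MP_ff81b6_nt.LinearFormsOnSL2
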