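import Pool.Agent.Y898.PolyGaps

set_option autoImplicit false

/-!
# Consecutive prime gaps next to a record gap are return times of every system of polynomials

Let `f(x) = log x (log₂ x)² log₄ x / (log₃ x)²`, the size of the largest gaps between consecutive
primes that are known to occur up to `x`, and let `1 ≤ H ≤ c f(x)` be any scale.  Take `N` polynomial
maps `P_1, …, P_N` of `k` variables, of bounded degree and without constant term, with values in
`ℝ^e`, where the dimension `e` is arbitrary but all except `s` of the coordinates of the maps take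
integer values at integer points, and colour `ℤ^e` with `K` colours.  At least `x^(7/8)` blocks of
`k + 1` consecutive primes up to `x`, whose `k` gaps `d = (d_1, …, d_k)` lie between `H` and `C H`
and which follow a gap of size at least `c f(x)`, have the following two properties:

* every coordinate of every vector `P_j(d)` is within `ε` of an integer (a Bohr type recurrence,
  uniform in the polynomials, which may depend on `x`);
* the points `a` of `ℤ^e` for which all the points `a + [P_1(d)], …, a + [P_N(d)]` (nearest integer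
  vectors) have the colour of `a` have upper Banach density at least `η` (the polynomial van der
  Waerden theorem with the gaps as parameters).

The constants `c`, `C`, `x₀` and `η` depend only on `k`, `K`, `N`, the degree, `s` and `ε`, not on the
polynomials, the dimension `e`, the colouring or the scale.  With `H = c f(x)` all the `k + 1` gaps
have record size.

The theorem is `Pool.Agent.Y898.PolyGaps.poly_gaps` of the starting library (helper898), which was not
handed in; it combines a polynomial Hales-Jewett type argument for block sequences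
(`Y898.Den.returns`) with the record sieve of helper101 in the form of `Y898.Engine2`.
-/

namespace Pool.Agent.Results.MP_ff81b6_nt.PolynomialReturnTimes

/-- The record scale `f(x) = log x (log₂ x)² log₄ x / (log₃ x)²` (iterated natural logarithms). -/
noncomputable def f (x : ℝ) : ℝ :=
  Real.log x * (Real.log (Real.log x)) ^ 2 * Real.log (Real.log (Real.log (Real.log x))) /
    (Real.log (Real.log (Real.log x))) ^ 2

/-- The `i`-th prime, numbered from `p 0 = 2`. -/
noncomputable def p (i : ℕ) : ℕ := Nat.nth Nat.Prime i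

/-- The gap after the `i`-th prime. -/
noncomputable def d (i : ℕ) : ℤ := (p (i + 1) : ℤ) - p i

/-- The primes `p_n, …, p_(n+k)` are at most `x`, the `k` gaps between them are at least `H` and at
most `C H`, and the gap before `p_n` is at least `c f(x)`. -/
def Cluster (c C x H : ℝ) (k n : ℕ) : Prop :=
  0 < n ∧ (p (n + k) : ℝ) ≤ x ∧ c * f x ≤ (d (n - 1) : ℝ) ∧
    ∀ i < k, H ≤ (d (n + i) : ℝ) ∧ (d (n + i) : ℝ) ≤ C * H

/-- The value at the integer point `v` of the real polynomial in `k` variables, of degree at most `D`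
in every variable, with the coefficient `cf m` at the monomial `∏ v_l ^ (m l)`. -/
noncomputable def value {k D : ℕ} (cf : (Fin k → Fin (D + 1)) → ℝ) (v : Fin k → ℤ) : ℝ :=
  ∑ m, (∏ l, (v l : ℝ) ^ (m l : ℕ)) * cf m

/-- Upper Banach density at least `η` (along cubes): there are arbitrarily large cubes of side `M` of
which the set `A` contains at least `η M ^ e` points. -/
def UpperDensity {e : ℕ} (A : Set (Fin e → ℤ)) (η : ℝ) : Prop :=
  ∀ L : ℕ, ∃ M : ℕ, L ≤ M ∧ ∃ x : Fin e → ℤ,
    η * (M : ℝ) ^ e ≤ (Set.ncard {a | a ∈ A ∧ ∀ i, x i ≤ a i ∧ a i < x i + M} : ℝ)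

theorem value_eq {k D e : ℕ} (cf : Fin e → (Fin k → Fin (D + 1)) → ℝ) (v : Fin k → ℤ) (i : Fin e) :
    Pool.Agent.Y898.PR.ev (fun m i => cf i m) (fun l => ((v l : ℤ) : ℝ)) i = value (cf i) v := by
  unfold Pool.Agent.Y898.PR.ev value
  rw [Finset.sum_apply]
  rfl

theorem cluster_of {c C x H : ℝ} {k n : ℕ} {Q : (Fin k → ℤ) → Prop}
    (h : n ∈ Pool.Agent.Y898.PolyGaps.Cl c C x H k Q) :
    Cluster c C x H k n ∧ Q (fun l => d (n + l)) := by
  obtain ⟨h1, h2, h3, h4, h5⟩ := h
  refine ⟨⟨h1, h2, ?_, fun i hi => ?_⟩, h5⟩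
  · unfold d p
    rw [Nat.sub_add_cancel h1]
    push_cast
    exact h3
  · unfold d p
    push_cast
    exact h4 i hi

theorem finite_of {x : ℝ} {k : ℕ} {S : Set ℕ} (h : ∀ n ∈ S, (p (n + k) : ℝ) ≤ x) : S.Finite := by
  refine (Set.finite_Iic ⌊x⌋₊).subset ?_
  intro n hn
  refine Nat.le_floor (le_trans ?_ (h n hn))
  have h2 : n + k ≤ Nat.nth Nat.Prime (n + k) :=
    (Nat.nth_strictMono Nat.infinite_setOfPred_prime).le_apply
  exact_mod_cast (Nat.le_add_right n k).trans h2

/-- **Consecutive gaps next to a record gap are polynomial return times.**  For all `k`, `K`, `N`,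
`D`, `s` and `ε > 0` there are `η > 0`, `c > 0`, `C` and `x₀` such that for all `x ≥ x₀`, all `H` with
`1 ≤ H ≤ c f(x)`, all dimensions `e`, all polynomials `P_(j,i)` (`j ≤ N`, `i ≤ e`) in `k` variables of
degree at most `D` in every variable and without constant term, of which those with `i` outside of a
set of at most `s` coordinates take integer values at integer points, and all colourings `Ψ` of `ℤ^e`
with `K` colours, there are at least `x^(7/8)` blocks `p_n, …, p_(n+k)` of consecutive primes up to
`x`, with all `k` gaps between `H` and `C H` and the gap before `p_n` at least `c f(x)`, such that with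
`v` the vector of the `k` gaps all the values `P_(j,i)(v)` are within `ε` of integers and the set of
the `a` in `ℤ^e` with `Ψ(a + [P_j(v)]) = Ψ(a)` for all `j` has upper Banach density at least `η`. -/
theorem result (k K N D s : ℕ) (ε : ℝ) (hε : 0 < ε) : ∃ η : ℝ, 0 < η ∧ ∃ c C : ℝ, 0 < c ∧
    ∃ x₀ : ℝ, ∀ x : ℝ, x₀ ≤ x → ∀ H : ℝ, 1 ≤ H → H ≤ c * f x →
    ∀ (e : ℕ) (cf : Fin N → Fin e → (Fin k → Fin (D + 1)) → ℝ), (∀ j i, cf j i 0 = 0) →
    ∀ S : Finset (Fin e), S.card ≤ s →
    (∀ i, i ∉ S → ∀ j, ∀ v : Fin k → ℤ, ∃ u : ℤ, value (cf j i) v = u) →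
    ∀ Ψ : (Fin e → ℤ) → Fin K,
    x ^ (7 / 8 : ℝ) ≤ (Set.ncard {n : ℕ | Cluster c C x H k n ∧
      (∀ j i, |value (cf j i) (fun l => d (n + l)) -
        round (value (cf j i) (fun l => d (n + l)))| < ε) ∧
      UpperDensity {a : Fin e → ℤ | ∀ j, Ψ (fun i => a i +
        round (value (cf j i) (fun l => d (n + l)))) = Ψ a} η} : ℝ) := by
  obtain ⟨η, hη, c, C, hc, -, h⟩ := Pool.Agent.Y898.PolyGaps.poly_gaps k K N D s ε hε
  obtain ⟨x₀, hx₀⟩ := Filter.eventually_atTop.1 h
  refine ⟨η, hη, c, C, hc, x₀, fun x hx H hH hHc e cf hcf S hS hint Ψ => ?_⟩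
  refine (hx₀ x hx H hH hHc e (fun j m i => cf j i m) (fun j => ?_) S hS (fun i hi j v => ?_)
    Ψ).trans ?_
  · funext i
    exact hcf j i
  · obtain ⟨u, hu⟩ := hint i hi j v
    exact ⟨u, by rw [value_eq (fun i => cf j i) v i]; exact hu⟩
  · rw [Nat.cast_le]
    refine Set.ncard_le_ncard ?_ (finite_of (k := k) fun n hn => hn.1.2.1)
    intro n hn
    obtain ⟨h1, h2, h3⟩ := cluster_of hn
    refine ⟨h1, fun j i => ?_, ?_⟩
    · have h4 := h2 j i
      rwa [value_eq (fun i => cf j i) _ i] at h4
    · intro L
      obtain ⟨M, hM, y, hy⟩ := h3 L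
      refine ⟨M, hM, y, hy.trans (le_of_eq ?_)⟩
      congr 2
      ext a
      simp only [value_eq]

end Pool.Agent.Results.MP_ff81b6_nt.PolynomialReturnTimes
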